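import Mathlib

namespace Pool.Agent.Results.MP_8c24b6_lc.OneSidedSqrtTwo

/-- The four letters. -/
inductive Base
  | A | C | G | U
  deriving DecidableEq

/-- The complementary letter: A and U are complementary, C and G are complementary. -/
def Base.comp : Base → Base
  | .A => .U
  | .U => .A
  | .C => .G
  | .G => .C

/-- Positions `i` and `j` of `x` (counted from 0) exist and carry complementary letters. -/
def Complementary (x : List Base) (i j : ℕ) : Prop :=
  ∃ b : Base, x[i]? = some b ∧ x[j]? = some b.comp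

/-- `M` is a non-crossing matching of the word `x`. -/
structure IsNC (x : List Base) (M : Finset (ℕ × ℕ)) : Prop where
  lt : ∀ e ∈ M, e.1 < e.2
  compl : ∀ e ∈ M, Complementary x e.1 e.2
  disj : ∀ e ∈ M, ∀ f ∈ M, e ≠ f → e.1 ≠ f.1 ∧ e.1 ≠ f.2 ∧ e.2 ≠ f.1 ∧ e.2 ≠ f.2
  nc : ∀ e ∈ M, ∀ f ∈ M, ¬ (e.1 < f.1 ∧ f.1 < e.2 ∧ e.2 < f.2)

open Classical in
/-- The maximum size of a non-crossing matching of `x`. -/
noncomputable def OPT (x : List Base) : ℕ :=
  ((Finset.range x.length ×ˢ Finset.range x.length).powerset.filter (IsNC x)).sup Finset.card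

/-- A deterministic streaming algorithm whose working memory has `s` bits, that is, `2 ^ s`
states: a starting state, an update rule which may depend on the number of the pass and on the
position in the stream in an arbitrary way, and an output rule. -/
structure Alg (s : ℕ) where
  start : Fin (2 ^ s)
  step : ℕ → ℕ → Fin (2 ^ s) → Base → Fin (2 ^ s)
  out : Fin (2 ^ s) → ℝ

/-- Memory state after reading the letters of the list in pass `k`, the first of them being at
position `i` of the stream, starting from the memory state `q`. -/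
def Alg.read {s : ℕ} (A : Alg s) (k : ℕ) : ℕ → Fin (2 ^ s) → List Base → Fin (2 ^ s)
  | _, q, [] => q
  | i, q, b :: l => A.read k (i + 1) (A.step k i q b) l

/-- Memory state after `k` passes over `x`. -/
def Alg.after {s : ℕ} (A : Alg s) (x : List Base) : ℕ → Fin (2 ^ s)
  | 0 => A.start
  | k + 1 => A.read k 0 (A.after x k) x

/-- The number output after `p` passes over `x`. -/
def Alg.output {s : ℕ} (A : Alg s) (p : ℕ) (x : List Base) : ℝ := A.out (A.after x p)

/-- With `p` passes, `A` is an `α`-approximation of `OPT` on the words of length `n`. -/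
def Alg.Approximates {s : ℕ} (A : Alg s) (p n : ℕ) (α : ℝ) : Prop :=
  ∀ x : List Base, x.length = n →
    (OPT x : ℝ) / α ≤ A.output p x ∧ A.output p x ≤ (OPT x : ℝ)

def enc : Bool → Base
  | false => .A
  | true => .C

def left (u : List Bool) : List Base := u.map enc

def right (v : List Bool) : List Base := (v.map (fun b => (enc b).comp)).reverse

/-- Number of maximal constant runs. -/
def runs : List Bool → ℕ
  | [] => 0
  | [_] => 1
  | a :: b :: t => (if a = b then 0 else 1) + runs (b :: t)

def MM {K : ℕ} : List (Fin K) → List (Fin K) → ℕ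
  | [], _ => 0
  | _ :: _, [] => 0
  | a :: as, b :: bs => (if a = b then 1 else 0) + max (MM as (b :: bs)) (MM (a :: as) bs)
termination_by as bs => as.length + bs.length

def cat {K : ℕ} (w : Fin K → List Bool) (as : List (Fin K)) : List Bool := (as.map w).flatten

/-- Letter number `i` of the infinite word with macro runs of length `(a + b) * s * m`, in which
the dominant letter comes in runs of length `a * s` and the other one in runs of length `b * s`. -/
def bitW (a b s m i : ℕ) : Bool :=
  xor (decide (i / ((a + b) * s * m) % 2 = 1)) (decide (a * s ≤ i % ((a + b) * s)))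

def med (a b s : ℕ) (c : Bool) (i : ℕ) : Bool := xor c (decide (a * s ≤ i % ((a + b) * s)))

/-- `x` is a finite factor of the infinite word `f`. -/
def Fac (f : ℕ → Bool) (x : List Bool) : Prop := ∃ t len : ℕ, x = (List.range' t len).map f

def wordV (a b T K : ℕ) : Fin K → List Bool := fun j =>
  (List.range (2 * (a + b) * T ^ (2 * K))).map (bitW a b (T ^ (K - (j : ℕ))) (T ^ (2 * (j : ℕ))))

theorem opt_le_chain (k : ℕ) : ∀ (u v : List Bool) (S : Finset (ℕ × ℕ)), S.card = k →
    (∀ s ∈ S, ∃ b : Bool, u[s.1]? = some b ∧ v[s.2]? = some b) →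
    (∀ s ∈ S, ∀ t ∈ S, s ≠ t → (s.1 < t.1 ∧ s.2 < t.2) ∨ (t.1 < s.1 ∧ t.2 < s.2)) →
    ∃ w : List Bool, w.Sublist u ∧ w.Sublist v ∧ w.length = k := by
  induction k with
  | zero =>
    intro u v S _ _ _
    exact ⟨[], List.nil_sublist _, List.nil_sublist _, rfl⟩
  | succ k ih =>
    intro u v S hS h1 h2
    have hne : S.Nonempty := by
      rw [← Finset.card_pos]; omega
    obtain ⟨s, hs, hmin⟩ := S.exists_min_image (fun t => t.1) hne
    have hlt : ∀ t ∈ S, t ≠ s → s.1 < t.1 ∧ s.2 < t.2 := by
      intro t ht hts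
      rcases h2 s hs t ht hts.symm with h | h
      · exact h
      · exfalso
        have := hmin t ht
        omega
    obtain ⟨b, hb1, hb2⟩ := h1 s hs
    have hcard : ((S.erase s).image (fun t : ℕ × ℕ => (t.1 - (s.1 + 1), t.2 - (s.2 + 1)))).card = k := by
      rw [Finset.card_image_of_injOn]
      · rw [Finset.card_erase_of_mem hs]; omega
      · intro t ht t' ht' h
        rw [Finset.mem_coe, Finset.mem_erase] at ht ht'
        have a1 := hlt t ht.2 ht.1
        have a2 := hlt t' ht'.2 ht'.1
        simp only [Prod.mk.injEq] at h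
        apply Prod.ext <;> omega
    obtain ⟨w, hw1, hw2, hw3⟩ := ih (u.drop (s.1 + 1)) (v.drop (s.2 + 1)) _ hcard (by
      intro t' ht'
      rw [Finset.mem_image] at ht'
      obtain ⟨t, ht, rfl⟩ := ht'
      rw [Finset.mem_erase] at ht
      have a1 := hlt t ht.2 ht.1
      obtain ⟨c, hc1, hc2⟩ := h1 t ht.2
      refine ⟨c, ?_, ?_⟩
      · simp only [List.getElem?_drop]
        rw [← hc1]; congr 1; omega
      · simp only [List.getElem?_drop]
        rw [← hc2]; congr 1; omega) (by
      intro p hp q hq hpq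
      rw [Finset.mem_image] at hp hq
      obtain ⟨t, ht, rfl⟩ := hp
      obtain ⟨t', ht', rfl⟩ := hq
      rw [Finset.mem_erase] at ht ht'
      have a1 := hlt t ht.2 ht.1
      have a2 := hlt t' ht'.2 ht'.1
      have hne : t ≠ t' := by
        rintro rfl
        exact hpq rfl
      rcases h2 t ht.2 t' ht'.2 hne with h | h
      · left; simp only; omega
      · right; simp only; omega)
    refine ⟨b :: w, ?_, ?_, by simp [hw3]⟩
    · obtain ⟨hlen, hval⟩ := List.getElem?_eq_some_iff.1 hb1
      have hd : u.drop s.1 = b :: u.drop (s.1 + 1) := by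
        rw [List.drop_eq_getElem_cons hlen, hval]
      have h3 : (b :: w).Sublist (u.drop s.1) := by
        rw [hd]; exact hw1.cons_cons b
      exact h3.trans (List.drop_sublist _ _)
    · obtain ⟨hlen, hval⟩ := List.getElem?_eq_some_iff.1 hb2
      have hd : v.drop s.2 = b :: v.drop (s.2 + 1) := by
        rw [List.drop_eq_getElem_cons hlen, hval]
      have h3 : (b :: w).Sublist (v.drop s.2) := by
        rw [hd]; exact hw2.cons_cons b
      exact h3.trans (List.drop_sublist _ _)

theorem opt_le_left (u v : List Bool) (i : ℕ) (hi : i < u.length) (b : Base)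
    (h : (left u ++ right v)[i]? = some b) : ∃ c : Bool, u[i]? = some c ∧ b = enc c := by
  rw [List.getElem?_append_left (by simpa [left] using hi)] at h
  simp only [left, List.getElem?_map, Option.map_eq_some_iff] at h
  obtain ⟨c, hc, rfl⟩ := h
  exact ⟨c, hc, rfl⟩

theorem opt_le_right (u v : List Bool) (j : ℕ) (hj : u.length ≤ j) (b : Base)
    (h : (left u ++ right v)[j]? = some b) :
    j - u.length < v.length ∧ ∃ c : Bool, v[v.length - 1 - (j - u.length)]? = some c ∧
      b = (enc c).comp := by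
  have hl : (left u).length = u.length := by simp [left]
  rw [List.getElem?_append_right (by rw [hl]; exact hj), hl] at h
  have hlt : j - u.length < (right v).length := (List.getElem?_eq_some_iff.1 h).1
  have hr : (right v).length = v.length := by simp [right]
  rw [hr] at hlt
  refine ⟨hlt, ?_⟩
  rw [right, List.getElem?_reverse (by simpa using hlt)] at h
  simp only [List.length_map, List.getElem?_map, Option.map_eq_some_iff] at h
  obtain ⟨c, hc, rfl⟩ := h
  exact ⟨c, hc, rfl⟩

theorem opt_le (u v : List Bool) (k : ℕ)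
    (h : ∀ w : List Bool, w.Sublist u → w.Sublist v → w.length ≤ k) :
    OPT (left u ++ right v) ≤ k := by
  classical
  unfold OPT
  apply Finset.sup_le
  intro M hM
  rw [Finset.mem_filter] at hM
  replace hM := hM.2
  have key : ∀ e ∈ M, e.1 < u.length ∧ u.length ≤ e.2 ∧ e.2 - u.length < v.length ∧
      ∃ c : Bool, u[e.1]? = some c ∧ v[v.length - 1 - (e.2 - u.length)]? = some c := by
    intro e he
    obtain ⟨b, hb1, hb2⟩ := hM.compl e he
    have hlt := hM.lt e he
    have h1 : e.1 < u.length := by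
      by_contra hcon
      push Not at hcon
      obtain ⟨-, c1, -, hc1⟩ := opt_le_right u v e.1 hcon b hb1
      obtain ⟨-, c2, -, hc2⟩ := opt_le_right u v e.2 (by omega) _ hb2
      rw [hc1] at hc2
      revert hc2
      cases c1 <;> cases c2 <;> decide
    obtain ⟨c1, hc1, hb⟩ := opt_le_left u v e.1 h1 b hb1
    have h2 : u.length ≤ e.2 := by
      by_contra hcon
      push Not at hcon
      obtain ⟨c2, -, hc2⟩ := opt_le_left u v e.2 hcon _ hb2
      rw [hb] at hc2
      revert hc2
      cases c1 <;> cases c2 <;> decide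
    obtain ⟨h3, c2, hc2, hb'⟩ := opt_le_right u v e.2 h2 _ hb2
    refine ⟨h1, h2, h3, c1, hc1, ?_⟩
    rw [hc2]
    rw [hb] at hb'
    revert hb'
    cases c1 <;> cases c2 <;> decide
  have hcard : (M.image (fun e : ℕ × ℕ => (e.1, v.length - 1 - (e.2 - u.length)))).card = M.card := by
    apply Finset.card_image_of_injOn
    intro e he f hf hef
    by_contra hne
    simp only [Prod.mk.injEq] at hef
    exact (hM.disj e he f hf hne).1 hef.1
  obtain ⟨w, hw1, hw2, hw3⟩ := opt_le_chain M.card u v _ hcard (by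
    intro s hs
    rw [Finset.mem_image] at hs
    obtain ⟨e, he, rfl⟩ := hs
    exact (key e he).2.2.2) (by
    intro s hs t ht hst
    rw [Finset.mem_image] at hs ht
    obtain ⟨e, he, rfl⟩ := hs
    obtain ⟨f, hf, rfl⟩ := ht
    have hne : e ≠ f := by
      rintro rfl
      exact hst rfl
    have k1 := key e he
    have k2 := key f hf
    have d := hM.disj e he f hf hne
    have n1 := hM.nc e he f hf
    have n2 := hM.nc f hf e he
    rcases lt_or_gt_of_ne d.1 with h | h
    · left
      have : f.2 < e.2 := by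
        by_contra hcon
        apply n1
        refine ⟨h, by omega, ?_⟩
        have := d.2.2.2
        omega
      refine ⟨h, ?_⟩
      simp only
      omega
    · right
      have : e.2 < f.2 := by
        by_contra hcon
        apply n2
        refine ⟨h, by omega, ?_⟩
        have := d.2.2.2
        omega
      refine ⟨h, ?_⟩
      simp only
      omega)
  have := h w hw1 hw2
  omega

theorem opt_ge (u : List Bool) : u.length ≤ OPT (left u ++ right u) := by
  classical
  have hlen : (left u ++ right u).length = 2 * u.length := by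
    simp [left, right]; ring
  have hcard : ((Finset.range u.length).image (fun i => (i, 2 * u.length - 1 - i))).card = u.length := by
    rw [Finset.card_image_of_injective, Finset.card_range]
    intro a b hab
    exact (Prod.mk.inj hab).1
  unfold OPT
  calc u.length = ((Finset.range u.length).image (fun i => (i, 2 * u.length - 1 - i))).card := hcard.symm
    _ ≤ _ := by
      apply Finset.le_sup (f := Finset.card)
      rw [Finset.mem_filter, Finset.mem_powerset]
      refine ⟨?_, ?_⟩
      · intro p hp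
        rw [Finset.mem_image] at hp
        obtain ⟨i, hi, rfl⟩ := hp
        rw [Finset.mem_range] at hi
        rw [Finset.mem_product, Finset.mem_range, Finset.mem_range, hlen]
        constructor <;> simp only <;> omega
      · constructor
        · intro e he
          rw [Finset.mem_image] at he
          obtain ⟨i, hi, rfl⟩ := he
          rw [Finset.mem_range] at hi
          simp only
          omega
        · intro e he
          rw [Finset.mem_image] at he
          obtain ⟨i, hi, rfl⟩ := he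
          rw [Finset.mem_range] at hi
          refine ⟨enc u[i], ?_, ?_⟩
          · simp only
            rw [List.getElem?_append_left (by simpa [left] using hi)]
            simp [left, hi]
          · simp only
            rw [List.getElem?_append_right (by simp [left]; omega)]
            have h1 : 2 * u.length - 1 - i - (left u).length = u.length - 1 - i := by
              simp [left]; omega
            rw [h1]
            unfold right
            rw [List.getElem?_reverse (by simp; omega)]
            have h2 : (List.map (fun b => (enc b).comp) u).length - 1 - (u.length - 1 - i) = i := by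
              simp; omega
            rw [h2]
            simp [hi]
        · intro e he f hf hef
          rw [Finset.mem_image] at he hf
          obtain ⟨i, hi, rfl⟩ := he
          obtain ⟨j, hj, rfl⟩ := hf
          rw [Finset.mem_range] at hi hj
          have hij : i ≠ j := by
            rintro rfl; exact hef rfl
          simp only
          refine ⟨hij, ?_, ?_, ?_⟩ <;> omega
        · intro e he f hf
          rw [Finset.mem_image] at he hf
          obtain ⟨i, hi, rfl⟩ := he
          obtain ⟨j, hj, rfl⟩ := hf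
          rw [Finset.mem_range] at hi hj
          simp only
          omega

theorem opt_append_le (x y : List Base) : OPT (x ++ y) ≤ OPT x + y.length := by
  classical
  unfold OPT
  refine Finset.sup_le fun M hM => ?_
  rw [Finset.mem_filter, Finset.mem_powerset] at hM
  obtain ⟨hMs, hM⟩ := hM
  have hcard := Finset.card_filter_add_card_filter_not (s := M) (fun e => e.2 < x.length)
  have h1 : (M.filter (fun e => e.2 < x.length)).card ≤
      ((Finset.range x.length ×ˢ Finset.range x.length).powerset.filter (IsNC x)).sup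
        Finset.card := by
    apply Finset.le_sup (f := Finset.card)
    rw [Finset.mem_filter, Finset.mem_powerset]
    constructor
    · intro e he
      rw [Finset.mem_filter] at he
      have := hM.lt e he.1
      rw [Finset.mem_product, Finset.mem_range, Finset.mem_range]
      exact ⟨this.trans he.2, he.2⟩
    · refine ⟨fun e he => hM.lt e (Finset.mem_filter.1 he).1, fun e he => ?_,
        fun e he f hf => hM.disj e (Finset.mem_filter.1 he).1 f (Finset.mem_filter.1 hf).1,
        fun e he f hf => hM.nc e (Finset.mem_filter.1 he).1 f (Finset.mem_filter.1 hf).1⟩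
      rw [Finset.mem_filter] at he
      obtain ⟨b, hb1, hb2⟩ := hM.compl e he.1
      have h12 := hM.lt e he.1
      rw [List.getElem?_append_left (h12.trans he.2)] at hb1
      rw [List.getElem?_append_left he.2] at hb2
      exact ⟨b, hb1, hb2⟩
  have h2 : (M.filter (fun e => ¬ e.2 < x.length)).card ≤ y.length := by
    have h3 : (M.filter (fun e => ¬ e.2 < x.length)).card ≤
        (Finset.Ico x.length (x.length + y.length)).card := by
      apply Finset.card_le_card_of_injOn Prod.snd
      · intro e he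
        have he' := Finset.mem_filter.1 (Finset.mem_coe.1 he)
        have h4 := hMs he'.1
        rw [Finset.mem_product, Finset.mem_range, Finset.mem_range, List.length_append] at h4
        exact Finset.mem_coe.2 (Finset.mem_Ico.2 ⟨not_lt.1 he'.2, h4.2⟩)
      · intro e he f hf hef
        by_contra hne
        have he' := Finset.mem_filter.1 (Finset.mem_coe.1 he)
        have hf' := Finset.mem_filter.1 (Finset.mem_coe.1 hf)
        exact (hM.disj e he'.1 f hf'.1 hne).2.2.2 hef
    rw [Nat.card_Ico] at h3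
    omega
  omega

theorem opt_append_ge (x y : List Base) : OPT x ≤ OPT (x ++ y) := by
  classical
  unfold OPT
  apply Finset.sup_le
  intro M hM
  rw [Finset.mem_filter, Finset.mem_powerset] at hM
  obtain ⟨hM1, hM2⟩ := hM
  have hmem : M ∈ ((Finset.range (x ++ y).length ×ˢ Finset.range (x ++ y).length).powerset.filter
      (IsNC (x ++ y))) := by
    rw [Finset.mem_filter, Finset.mem_powerset]
    refine ⟨hM1.trans ?_, hM2.lt, ?_, hM2.disj, hM2.nc⟩
    · apply Finset.product_subset_product <;>
      · apply Finset.range_subset_range.mpr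
        simp
    · intro e he
      obtain ⟨b, hb1, hb2⟩ := hM2.compl e he
      refine ⟨b, ?_, ?_⟩
      · rw [List.getElem?_append_left (by
          by_contra hc
          push Not at hc
          rw [List.getElem?_eq_none hc] at hb1
          exact absurd hb1 (by simp))]
        exact hb1
      · rw [List.getElem?_append_left (by
          by_contra hc
          push Not at hc
          rw [List.getElem?_eq_none hc] at hb2
          exact absurd hb2 (by simp))]
        exact hb2
  exact Finset.le_sup (f := Finset.card) hmem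

def ZZ {K : ℕ} : List (Fin K) → List (Fin K) → ℕ
  | [], _ => 1
  | _ :: _, [] => 1
  | a :: as, b :: bs => (if a = b then K else 1) * (ZZ as (b :: bs) + ZZ (a :: as) bs)
termination_by as bs => as.length + bs.length

theorem ZZ_nil {K : ℕ} (bs : List (Fin K)) : ZZ [] bs = 1 := by rw [ZZ]

theorem ZZ_cons_nil {K : ℕ} (a : Fin K) (as : List (Fin K)) : ZZ (a :: as) [] = 1 := by rw [ZZ]

theorem ZZ_cons {K : ℕ} (a : Fin K) (as : List (Fin K)) (b : Fin K) (bs : List (Fin K)) :
    ZZ (a :: as) (b :: bs)
      = (if a = b then K else 1) * (ZZ as (b :: bs) + ZZ (a :: as) bs) := by rw [ZZ]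

theorem MM_le_ZZ {K : ℕ} (as bs : List (Fin K)) : K ^ MM as bs ≤ ZZ as bs := by
  induction as, bs using MM.induct with
  | case1 bs => rw [MM, ZZ_nil, pow_zero]
  | case2 a as => rw [MM, ZZ_cons_nil, pow_zero]
  | case3 a as b bs ih1 ih2 =>
    rw [MM, ZZ_cons, pow_add]
    have h1 : K ^ (if a = b then 1 else 0) = if a = b then K else 1 := by split_ifs <;> simp
    rw [h1]
    apply Nat.mul_le_mul_left
    rcases le_total (MM as (b :: bs)) (MM (a :: as) bs) with h | h
    · rw [max_eq_right h]; omega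
    · rw [max_eq_left h]; omega

theorem sum_ofFn_succ {K : ℕ} (n : ℕ) (f : List (Fin K) → ℕ) :
    ∑ c : Fin (n + 1) → Fin K, f (List.ofFn c)
      = ∑ a : Fin K, ∑ c : Fin n → Fin K, f (a :: List.ofFn c) := by
  rw [← Fintype.sum_prod_type' (fun (a : Fin K) (c : Fin n → Fin K) => f (a :: List.ofFn c))]
  refine (Fintype.sum_equiv (Fin.consEquiv (fun _ => Fin K)) _ _ ?_).symm
  rintro ⟨a, c⟩
  show f (a :: List.ofFn c) = f (List.ofFn (Fin.cons a c : Fin (n + 1) → Fin K))
  congr 1
  rw [List.ofFn_succ]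
  simp

theorem sum_x_le {K : ℕ} (b : Fin K) : ∑ a : Fin K, (if a = b then K else 1) ≤ 2 * K := by
  calc ∑ a : Fin K, (if a = b then K else 1) ≤ ∑ a : Fin K, ((if a = b then K else 0) + 1) := by
        apply Finset.sum_le_sum
        intro a _
        split_ifs <;> omega
    _ = 2 * K := by
        rw [Finset.sum_add_distrib, Finset.sum_ite_eq' Finset.univ b (fun _ => K)]
        simp
        omega

theorem sum_x_le' {K : ℕ} (b : Fin K) : ∑ a : Fin K, (if b = a then K else 1) ≤ 2 * K := by
  have h := sum_x_le b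
  calc ∑ a : Fin K, (if b = a then K else 1) = ∑ a : Fin K, (if a = b then K else 1) := by
        apply Finset.sum_congr rfl
        intro a _
        simp only [eq_comm]
    _ ≤ 2 * K := h

theorem pow_K_le {K : ℕ} (n : ℕ) : K ^ n ≤ (4 * K) ^ n := Nat.pow_le_pow_left (by omega) n

theorem FF_le {K : ℕ} (s : ℕ) : ∀ m n : ℕ, m + n = s → ∀ a b : Fin K,
    ∑ c : Fin m → Fin K, ∑ c' : Fin n → Fin K, ZZ (a :: List.ofFn c) (b :: List.ofFn c')
      ≤ 2 * (if a = b then K else 1) * (4 * K) ^ (m + n) := by
  induction s using Nat.strong_induction_on with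
  | _ s ih =>
    intro m n hmn a b
    have hA1 : ∑ c : Fin m → Fin K, ∑ c' : Fin n → Fin K, ZZ (List.ofFn c) (b :: List.ofFn c')
        ≤ (4 * K) ^ (m + n) := by
      rcases m with _ | m
      · have h0 : ∀ (c : Fin 0 → Fin K) (c' : Fin n → Fin K),
            ZZ (List.ofFn c) (b :: List.ofFn c') = 1 := by
          intro c c'
          rw [List.ofFn_zero, ZZ_nil]
        simp only [h0]
        simp only [Finset.sum_const, Finset.card_univ, smul_eq_mul, mul_one, Fintype.card_fun,
          Fintype.card_fin, pow_zero, zero_add, one_mul]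
        exact pow_K_le n
      · rw [sum_ofFn_succ m (fun l => ∑ c' : Fin n → Fin K, ZZ l (b :: List.ofFn c'))]
        calc ∑ a1 : Fin K, ∑ c : Fin m → Fin K, ∑ c' : Fin n → Fin K,
              ZZ (a1 :: List.ofFn c) (b :: List.ofFn c')
            ≤ ∑ a1 : Fin K, 2 * (if a1 = b then K else 1) * (4 * K) ^ (m + n) :=
              Finset.sum_le_sum (fun a1 _ => ih (m + n) (by omega) m n rfl a1 b)
          _ = 2 * (∑ a1 : Fin K, if a1 = b then K else 1) * (4 * K) ^ (m + n) := by
              rw [← Finset.sum_mul, ← Finset.mul_sum]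
          _ ≤ (2 * (2 * K)) * (4 * K) ^ (m + n) :=
              Nat.mul_le_mul_right _ (Nat.mul_le_mul_left _ (sum_x_le b))
          _ = (4 * K) ^ (m + 1 + n) := by ring
    have hA2 : ∑ c : Fin m → Fin K, ∑ c' : Fin n → Fin K, ZZ (a :: List.ofFn c) (List.ofFn c')
        ≤ (4 * K) ^ (m + n) := by
      rcases n with _ | n
      · have h0 : ∀ (c : Fin m → Fin K) (c' : Fin 0 → Fin K),
            ZZ (a :: List.ofFn c) (List.ofFn c') = 1 := by
          intro c c'
          rw [List.ofFn_zero, ZZ_cons_nil]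
        simp only [h0]
        simp only [Finset.sum_const, Finset.card_univ, smul_eq_mul, mul_one, Fintype.card_fun,
          Fintype.card_fin, pow_zero, add_zero]
        exact pow_K_le m
      · have h1 : ∀ c : Fin m → Fin K,
            ∑ c' : Fin (n + 1) → Fin K, ZZ (a :: List.ofFn c) (List.ofFn c')
              = ∑ b1 : Fin K, ∑ c' : Fin n → Fin K, ZZ (a :: List.ofFn c) (b1 :: List.ofFn c') :=
          fun c => sum_ofFn_succ n (fun l => ZZ (a :: List.ofFn c) l)
        simp only [h1]
        rw [Finset.sum_comm]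
        calc ∑ b1 : Fin K, ∑ c : Fin m → Fin K, ∑ c' : Fin n → Fin K,
              ZZ (a :: List.ofFn c) (b1 :: List.ofFn c')
            ≤ ∑ b1 : Fin K, 2 * (if a = b1 then K else 1) * (4 * K) ^ (m + n) :=
              Finset.sum_le_sum (fun b1 _ => ih (m + n) (by omega) m n rfl a b1)
          _ = 2 * (∑ b1 : Fin K, if a = b1 then K else 1) * (4 * K) ^ (m + n) := by
              rw [← Finset.sum_mul, ← Finset.mul_sum]
          _ ≤ (2 * (2 * K)) * (4 * K) ^ (m + n) :=
              Nat.mul_le_mul_right _ (Nat.mul_le_mul_left _ (sum_x_le' a))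
          _ = (4 * K) ^ (m + (n + 1)) := by ring
    simp only [ZZ_cons]
    simp only [← Finset.mul_sum, Finset.sum_add_distrib]
    calc (if a = b then K else 1) *
          (∑ c : Fin m → Fin K, ∑ c' : Fin n → Fin K, ZZ (List.ofFn c) (b :: List.ofFn c')
            + ∑ c : Fin m → Fin K, ∑ c' : Fin n → Fin K, ZZ (a :: List.ofFn c) (List.ofFn c'))
        ≤ (if a = b then K else 1) * ((4 * K) ^ (m + n) + (4 * K) ^ (m + n)) :=
          Nat.mul_le_mul_left _ (Nat.add_le_add hA1 hA2)
      _ = 2 * (if a = b then K else 1) * (4 * K) ^ (m + n) := by ring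

theorem TT_le {K : ℕ} (N : ℕ) :
    ∑ c : Fin N → Fin K, ∑ c' : Fin N → Fin K, ZZ (List.ofFn c) (List.ofFn c')
      ≤ (4 * K) ^ (2 * N) := by
  rcases N with _ | N
  · have h0 : ∀ (c : Fin 0 → Fin K) (c' : Fin 0 → Fin K),
        ZZ (List.ofFn c) (List.ofFn c') = 1 := by
      intro c c'
      rw [List.ofFn_zero, ZZ_nil]
    simp only [h0]
    simp
  · rw [sum_ofFn_succ N (fun l => ∑ c' : Fin (N + 1) → Fin K, ZZ l (List.ofFn c'))]
    have h1 : ∀ (a : Fin K) (c : Fin N → Fin K),
        ∑ c' : Fin (N + 1) → Fin K, ZZ (a :: List.ofFn c) (List.ofFn c')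
          = ∑ b : Fin K, ∑ c' : Fin N → Fin K, ZZ (a :: List.ofFn c) (b :: List.ofFn c') :=
      fun a c => sum_ofFn_succ N (fun l => ZZ (a :: List.ofFn c) l)
    simp only [h1]
    calc ∑ a : Fin K, ∑ c : Fin N → Fin K, ∑ b : Fin K, ∑ c' : Fin N → Fin K,
          ZZ (a :: List.ofFn c) (b :: List.ofFn c')
        = ∑ a : Fin K, ∑ b : Fin K, ∑ c : Fin N → Fin K, ∑ c' : Fin N → Fin K,
          ZZ (a :: List.ofFn c) (b :: List.ofFn c') := by
          apply Finset.sum_congr rfl
          intro a _
          rw [Finset.sum_comm]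
      _ ≤ ∑ a : Fin K, ∑ b : Fin K, 2 * (if a = b then K else 1) * (4 * K) ^ (N + N) :=
          Finset.sum_le_sum (fun a _ => Finset.sum_le_sum (fun b _ => FF_le (N + N) N N rfl a b))
      _ = ∑ a : Fin K, 2 * (∑ b : Fin K, if a = b then K else 1) * (4 * K) ^ (N + N) := by
          apply Finset.sum_congr rfl
          intro a _
          rw [← Finset.sum_mul, ← Finset.mul_sum]
      _ ≤ ∑ _a : Fin K, (2 * (2 * K)) * (4 * K) ^ (N + N) :=
          Finset.sum_le_sum (fun a _ =>
            Nat.mul_le_mul_right _ (Nat.mul_le_mul_left _ (sum_x_le' a)))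
      _ = K * ((4 * K) * (4 * K) ^ (N + N)) := by
          rw [Finset.sum_const, Finset.card_univ, Fintype.card_fin, smul_eq_mul]
          ring
      _ ≤ (4 * K) * ((4 * K) * (4 * K) ^ (N + N)) := Nat.mul_le_mul_right _ (by omega)
      _ = (4 * K) ^ (2 * (N + 1)) := by ring

theorem count_bad (K N t : ℕ) (hK : 0 < K) :
    K ^ t * (Finset.univ.filter (fun cc : (Fin N → Fin K) × (Fin N → Fin K) =>
      t ≤ MM (List.ofFn cc.1) (List.ofFn cc.2))).card ≤ (4 * K) ^ (2 * N) := by
  refine le_trans ?_ (TT_le (K := K) N)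
  rw [← Fintype.sum_prod_type' (fun (c c' : Fin N → Fin K) => ZZ (List.ofFn c) (List.ofFn c'))]
  rw [mul_comm, ← smul_eq_mul, ← Finset.sum_const]
  refine le_trans (Finset.sum_le_sum (g := fun cc : (Fin N → Fin K) × (Fin N → Fin K) =>
    ZZ (List.ofFn cc.1) (List.ofFn cc.2)) ?_)
    (Finset.sum_le_sum_of_subset (Finset.filter_subset _ _))
  intro cc hcc
  rw [Finset.mem_filter] at hcc
  exact (Nat.pow_le_pow_right hK hcc.2).trans (MM_le_ZZ _ _)

theorem read_append_tr {s : ℕ} (A : Alg s) (k : ℕ) (u : List Base) :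
    ∀ (i : ℕ) (q : Fin (2 ^ s)) (v : List Base),
      A.read k i q (u ++ v) = A.read k (i + u.length) (A.read k i q u) v := by
  induction u with
  | nil => intro i q v; simp [Alg.read]
  | cons b l ih =>
    intro i q v
    simp only [List.cons_append, Alg.read, List.length_cons]
    rw [ih (i + 1) (A.step k i q b) v]
    congr 1
    omega

theorem transcripts {s : ℕ} (A : Alg s) (p m : ℕ) :
    ∃ T : List Base → List Base → (Fin p → Fin (2 ^ s) × Fin (2 ^ s)),
      ∀ u v u' v' : List Base, u.length = m → u'.length = m → T u v = T u' v' →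
        A.output p (u ++ v') = A.output p (u ++ v) := by
  refine ⟨fun u v k => (A.read k 0 (A.after (u ++ v) k) u, A.after (u ++ v) (k + 1)), ?_⟩
  intro u v u' v' hu hu' hT
  have key : ∀ k : ℕ, k ≤ p → A.after (u ++ v') k = A.after (u ++ v) k := by
    intro k
    induction k with
    | zero => intro _; rfl
    | succ k ih =>
      intro hk
      have hkp : k < p := hk
      have h1 := ih (le_of_lt hkp)
      have h2 := congrFun hT ⟨k, hkp⟩
      simp only [Prod.mk.injEq] at h2
      obtain ⟨h3, h4⟩ := h2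
      have e1 : A.after (u ++ v') (k + 1) =
          A.read k (0 + u.length) (A.read k 0 (A.after (u ++ v') k) u) v' := by
        show A.read k 0 (A.after (u ++ v') k) (u ++ v') = _
        exact read_append_tr A k u 0 _ v'
      have e2 : A.after (u' ++ v') (k + 1) =
          A.read k (0 + u'.length) (A.read k 0 (A.after (u' ++ v') k) u') v' := by
        show A.read k 0 (A.after (u' ++ v') k) (u' ++ v') = _
        exact read_append_tr A k u' 0 _ v'
      rw [e1, h1, h3, hu, ← hu', ← e2, ← h4]
  unfold Alg.output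
  rw [key p le_rfl]

theorem fibre_sq {V Y : Type} [Fintype V] [Fintype Y] [DecidableEq V] [DecidableEq Y] (f : V → Y) :
    (Fintype.card V) ^ 2 ≤ Fintype.card Y *
      (Finset.univ.filter (fun cc : V × V => f cc.1 = f cc.2)).card := by
  have h1 : Fintype.card V = ∑ y : Y, (Finset.univ.filter (fun v : V => f v = y)).card := by
    rw [← Finset.card_univ]
    exact Finset.card_eq_sum_card_fiberwise (fun x _ => Finset.mem_univ (f x))
  have h2 : (Finset.univ.filter (fun cc : V × V => f cc.1 = f cc.2)).card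
      = ∑ y : Y, (Finset.univ.filter (fun v : V => f v = y)).card ^ 2 := by
    rw [Finset.card_eq_sum_card_fiberwise (s := Finset.univ.filter (fun cc : V × V => f cc.1 = f cc.2))
      (t := Finset.univ) (f := fun cc => f cc.1) (fun x _ => Finset.mem_univ _)]
    refine Finset.sum_congr rfl (fun y _ => ?_)
    rw [sq, ← Finset.card_product]
    congr 1
    ext ⟨a, b⟩
    simp only [Finset.mem_filter, Finset.mem_univ, true_and, Finset.mem_product]
    constructor
    · rintro ⟨h, h'⟩
      exact ⟨h', h ▸ h'⟩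
    · rintro ⟨h, h'⟩
      exact ⟨h.trans h'.symm, h⟩
  rw [h1, h2]
  have := sq_sum_le_card_mul_sum_sq (s := (Finset.univ : Finset Y))
    (f := fun y => (Finset.univ.filter (fun v : V => f v = y)).card)
  rw [Finset.card_univ] at this
  exact_mod_cast this

theorem counting {s : ℕ} (A : Alg s) (p N K E m : ℕ) (hE : 1 ≤ E) (hK : K = 32 ^ E)
    (x y : (Fin N → Fin K) → List Base) (hx : ∀ c, (x c).length = m)
    (hbad : ∀ c d, A.output p (x c ++ y d) = A.output p (x c ++ y c) →
      N / E + 1 ≤ MM (List.ofFn c) (List.ofFn d)) : N ≤ 2 * p * s := by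
  classical
  obtain ⟨T, hT⟩ := transcripts A p m
  have hK0 : 0 < K := by rw [hK]; positivity
  have h1 := fibre_sq (fun c : Fin N → Fin K => T (x c) (y c))
  have hsub : (Finset.univ.filter (fun cc : (Fin N → Fin K) × (Fin N → Fin K) =>
      (fun c : Fin N → Fin K => T (x c) (y c)) cc.1 = (fun c : Fin N → Fin K => T (x c) (y c)) cc.2))
      ⊆ (Finset.univ.filter (fun cc : (Fin N → Fin K) × (Fin N → Fin K) =>
      N / E + 1 ≤ MM (List.ofFn cc.1) (List.ofFn cc.2))) := by
    intro cc hcc
    simp only [Finset.mem_filter, Finset.mem_univ, true_and] at hcc ⊢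
    exact hbad _ _ (hT _ _ _ _ (hx _) (hx _) hcc)
  have h2 := Finset.card_le_card hsub
  have h3 := count_bad K N (N / E + 1) hK0
  set B := (Finset.univ.filter (fun cc : (Fin N → Fin K) × (Fin N → Fin K) =>
      N / E + 1 ≤ MM (List.ofFn cc.1) (List.ofFn cc.2))).card with hB
  have hcard : Fintype.card (Fin p → Fin (2 ^ s) × Fin (2 ^ s)) = 2 ^ (2 * p * s) := by
    rw [Fintype.card_fun, Fintype.card_prod, Fintype.card_fin, Fintype.card_fin, ← pow_add,
      ← pow_mul]
    congr 1; ring
  rw [hcard] at h1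
  have hV : Fintype.card (Fin N → Fin K) = K ^ N := by
    rw [Fintype.card_fun, Fintype.card_fin, Fintype.card_fin]
  rw [hV] at h1
  have h4 : K ^ (N / E + 1) * (K ^ N) ^ 2 ≤ 2 ^ (2 * p * s) * (4 * K) ^ (2 * N) := by
    calc K ^ (N / E + 1) * (K ^ N) ^ 2 ≤ K ^ (N / E + 1) * (2 ^ (2 * p * s) * B) :=
          Nat.mul_le_mul_left _ (h1.trans (Nat.mul_le_mul_left _ h2))
      _ = 2 ^ (2 * p * s) * (K ^ (N / E + 1) * B) := by ring
      _ ≤ 2 ^ (2 * p * s) * (4 * K) ^ (2 * N) := Nat.mul_le_mul_left _ h3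
  have h5 : (4 * K) ^ (2 * N) = 16 ^ N * (K ^ N) ^ 2 := by
    rw [mul_pow, pow_mul, pow_mul, pow_right_comm K 2 N]
    norm_num
  rw [h5, ← mul_assoc] at h4
  have h6 : K ^ (N / E + 1) ≤ 2 ^ (2 * p * s) * 16 ^ N :=
    Nat.le_of_mul_le_mul_right h4 (by positivity)
  have h7 : 32 ^ N ≤ K ^ (N / E + 1) := by
    rw [hK, ← pow_mul]
    apply Nat.pow_le_pow_right (by norm_num)
    have := Nat.lt_mul_div_succ N (show 0 < E by omega)
    omega
  have h8 : 2 ^ N * 16 ^ N ≤ 2 ^ (2 * p * s) * 16 ^ N := by
    rw [← mul_pow]; exact h7.trans h6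
  have h9 : 2 ^ N ≤ 2 ^ (2 * p * s) := Nat.le_of_mul_le_mul_right h8 (by positivity)
  exact (Nat.pow_le_pow_iff_right (by norm_num)).1 h9

theorem counting2 {s : ℕ} (A : Alg s) (p N K E m j : ℕ) (hE : 1 ≤ E) (hK : K = 32 ^ E)
    (x y : (Fin N → Fin K) → List Base) (hx : ∀ c, (x c).length = m)
    (G : Finset (Fin N → Fin K)) (hG : K ^ N ≤ 2 ^ j * G.card)
    (hbad : ∀ c ∈ G, ∀ d ∈ G, A.output p (x c ++ y d) = A.output p (x c ++ y c) →
      N / E + 1 ≤ MM (List.ofFn c) (List.ofFn d)) : N ≤ 2 * p * s + 2 * j := by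
  classical
  obtain ⟨T, hT⟩ := transcripts A p m
  have hK0 : 0 < K := by rw [hK]; positivity
  have h1 := fibre_sq (fun c : {c // c ∈ G} => T (x c.1) (y c.1))
  have h2 : (Finset.univ.filter (fun cc : {c // c ∈ G} × {c // c ∈ G} =>
      (fun c : {c // c ∈ G} => T (x c.1) (y c.1)) cc.1 = (fun c : {c // c ∈ G} => T (x c.1) (y c.1)) cc.2)).card
      ≤ (Finset.univ.filter (fun cc : (Fin N → Fin K) × (Fin N → Fin K) =>
      N / E + 1 ≤ MM (List.ofFn cc.1) (List.ofFn cc.2))).card := by
    apply Finset.card_le_card_of_injOn (fun cc : {c // c ∈ G} × {c // c ∈ G} => (cc.1.1, cc.2.1))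
    · intro cc hcc
      simp only [Finset.coe_filter, Finset.mem_univ, true_and, Set.mem_setOf_eq] at hcc ⊢
      exact hbad _ cc.1.2 _ cc.2.2 (hT _ _ _ _ (hx _) (hx _) hcc)
    · rintro ⟨a, b⟩ _ ⟨a', b'⟩ _ h
      simp only [Prod.mk.injEq] at h
      exact Prod.ext (Subtype.ext h.1) (Subtype.ext h.2)
  have h3 := count_bad K N (N / E + 1) hK0
  set B := (Finset.univ.filter (fun cc : (Fin N → Fin K) × (Fin N → Fin K) =>
      N / E + 1 ≤ MM (List.ofFn cc.1) (List.ofFn cc.2))).card with hB
  have hcard : Fintype.card (Fin p → Fin (2 ^ s) × Fin (2 ^ s)) = 2 ^ (2 * p * s) := by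
    rw [Fintype.card_fun, Fintype.card_prod, Fintype.card_fin, Fintype.card_fin, ← pow_add,
      ← pow_mul]
    congr 1; ring
  rw [hcard] at h1
  have hV : Fintype.card {c // c ∈ G} = G.card := by
    rw [Fintype.card_coe]
  rw [hV] at h1
  have h0 : (K ^ N) ^ 2 ≤ 2 ^ (2 * j) * (2 ^ (2 * p * s) * B) := by
    calc (K ^ N) ^ 2 ≤ (2 ^ j * G.card) ^ 2 := Nat.pow_le_pow_left hG 2
      _ = 2 ^ (2 * j) * G.card ^ 2 := by rw [mul_pow, ← pow_mul, mul_comm j 2]
      _ ≤ 2 ^ (2 * j) * (2 ^ (2 * p * s) * B) :=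
        Nat.mul_le_mul_left _ (h1.trans (Nat.mul_le_mul_left _ h2))
  have h4 : K ^ (N / E + 1) * (K ^ N) ^ 2 ≤ 2 ^ (2 * p * s + 2 * j) * (4 * K) ^ (2 * N) := by
    calc K ^ (N / E + 1) * (K ^ N) ^ 2 ≤ K ^ (N / E + 1) * (2 ^ (2 * j) * (2 ^ (2 * p * s) * B)) :=
          Nat.mul_le_mul_left _ h0
      _ = 2 ^ (2 * p * s + 2 * j) * (K ^ (N / E + 1) * B) := by rw [pow_add]; ring
      _ ≤ 2 ^ (2 * p * s + 2 * j) * (4 * K) ^ (2 * N) := Nat.mul_le_mul_left _ h3
  have h5 : (4 * K) ^ (2 * N) = 16 ^ N * (K ^ N) ^ 2 := by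
    rw [mul_pow, pow_mul, pow_mul, pow_right_comm K 2 N]
    norm_num
  rw [h5, ← mul_assoc] at h4
  have h6 : K ^ (N / E + 1) ≤ 2 ^ (2 * p * s + 2 * j) * 16 ^ N :=
    Nat.le_of_mul_le_mul_right h4 (by positivity)
  have h7 : 32 ^ N ≤ K ^ (N / E + 1) := by
    rw [hK, ← pow_mul]
    apply Nat.pow_le_pow_right (by norm_num)
    have := Nat.lt_mul_div_succ N (show 0 < E by omega)
    omega
  have h8 : 2 ^ N * 16 ^ N ≤ 2 ^ (2 * p * s + 2 * j) * 16 ^ N := by
    rw [← mul_pow]; exact h7.trans h6
  have h9 : 2 ^ N ≤ 2 ^ (2 * p * s + 2 * j) := Nat.le_of_mul_le_mul_right h8 (by positivity)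
  exact (Nat.pow_le_pow_iff_right (by norm_num)).1 h9

theorem fac_infix (f : ℕ → Bool) (x z : List Bool) (hx : Fac f x) (hz : z <:+: x) : Fac f z := by
  obtain ⟨t, len, rfl⟩ := hx
  obtain ⟨s, u, h⟩ := hz
  refine ⟨t + s.length, z.length, ?_⟩
  apply List.ext_getElem
  · simp
  · intro i h1 h2
    have hlen := congrArg List.length h
    simp only [List.length_append, List.length_map, List.length_range'] at hlen
    have h3 : s.length + i < (s ++ z ++ u).length := by
      simp only [List.length_append]; omega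
    have h4 : (s ++ z ++ u)[s.length + i] = z[i] := by
      rw [List.getElem_append_left (by simp only [List.length_append]; omega),
        List.getElem_append_right (by omega)]
      congr 1
      omega
    have h5 : (s ++ z ++ u)[s.length + i] = ((List.range' t len).map f)[s.length + i]'(by
        rw [← h]; exact h3) := by
      congr 1
    rw [← h4, h5]
    simp only [List.getElem_map, List.getElem_range']
    congr 1
    omega

/-- number of changes in `c :: l` -/
def rbwChg : Bool → List Bool → ℕ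
  | _, [] => 0
  | c, b :: t => (if c = b then 0 else 1) + rbwChg b t

theorem rbw_runs_cons (a : Bool) (t : List Bool) : runs (a :: t) = 1 + rbwChg a t := by
  induction t generalizing a with
  | nil => rfl
  | cons b t ih =>
    rw [runs, ih, rbwChg]
    omega

theorem rbw_tri (b c : Bool) (σ : List Bool) :
    rbwChg c σ ≤ (if c = b then 0 else 1) + rbwChg b σ := by
  cases σ with
  | nil => simp [rbwChg]
  | cons d τ =>
    rw [rbwChg, rbwChg]
    cases b <;> cases c <;> cases d <;> simp <;> omega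

theorem rbw_sub {σ l : List Bool} (h : σ.Sublist l) : ∀ c, rbwChg c σ ≤ rbwChg c l := by
  induction h with
  | slnil => intro c; exact le_rfl
  | @cons l₁ l₂ b _ ih =>
    intro c
    refine (rbw_tri b c l₁).trans ?_
    rw [rbwChg]
    have := ih b
    omega
  | @cons_cons l₁ l₂ b _ ih =>
    intro c
    rw [rbwChg, rbwChg]
    have := ih b
    omega

theorem rbw_runs_le {σ l : List Bool} (h : σ.Sublist l) : runs σ ≤ runs l := by
  cases σ with
  | nil => exact Nat.zero_le _
  | cons a τ =>
    cases l with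
    | nil => cases h
    | cons b l =>
      rw [rbw_runs_cons, rbw_runs_cons]
      have h1 := rbw_sub h b
      rw [rbwChg, rbwChg] at h1
      simp only [if_true] at h1
      omega

theorem rbw_count (f : ℕ → Bool) (g : ℕ)
    (hsep : ∀ i j, i < j → f i ≠ f (i + 1) → f j ≠ f (j + 1) → g ≤ j - i) :
    ∀ (len t r : ℕ), r ≤ g → (∀ i, t ≤ i → f i ≠ f (i + 1) → t + r ≤ i) →
      g * rbwChg (f t) ((List.range' (t + 1) len).map f) + r ≤ len + g := by
  intro len
  induction len with
  | zero =>
    intro t r hr _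
    simp [rbwChg]
    exact hr
  | succ len ih =>
    intro t r hr hi
    rw [List.range'_succ, List.map_cons, rbwChg]
    by_cases hc : f t = f (t + 1)
    · rw [if_pos hc, zero_add]
      have h1 := ih (t + 1) (r - 1) (by omega) (fun i hti hci => by
        have h2 := hi i (by omega) hci
        omega)
      omega
    · rw [if_neg hc]
      have h0 := hi t le_rfl hc
      have h1 := ih (t + 1) (g - 1) (by omega) (fun i hti hci => by
        have h2 := hsep t i (by omega) hc hci
        omega)
      rw [Nat.mul_add, Nat.mul_one]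
      omega

theorem rbw_general (f : ℕ → Bool) (g : ℕ)
    (hsep : ∀ i j, i < j → f i ≠ f (i + 1) → f j ≠ f (j + 1) → g ≤ j - i) (t len : ℕ) (σ : List Bool)
    (hσ : σ.Sublist ((List.range' t len).map f)) : g * runs σ ≤ len + 2 * g := by
  have h1 := rbw_runs_le hσ
  cases len with
  | zero =>
    have h2 : runs ((List.range' t 0).map f) = 0 := by simp [runs]
    rw [h2] at h1
    have h3 : runs σ = 0 := by omega
    rw [h3]
    omega
  | succ len =>
    rw [List.range'_succ, List.map_cons, rbw_runs_cons] at h1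
    have h2 := rbw_count f g hsep len t 0 (Nat.zero_le _) (fun i hi _ => by omega)
    have h3 : g * runs σ ≤ g * (1 + rbwChg (f t) ((List.range' (t + 1) len).map f)) :=
      Nat.mul_le_mul_left _ h1
    rw [Nat.mul_add, Nat.mul_one] at h3
    omega

theorem rbw_change (a b s m : ℕ) (hb : 1 ≤ b) (hs : 1 ≤ s) (i : ℕ)
    (h : bitW a b s m i ≠ bitW a b s m (i + 1)) :
    (i + 1) % ((a + b) * s) = 0 ∨ (i + 1) % ((a + b) * s) = a * s := by
  by_contra hcon
  push Not at hcon
  obtain ⟨h1, h2⟩ := hcon
  apply h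
  have hnd : ¬ ((a + b) * s) ∣ i + 1 := fun hd => h1 (Nat.mod_eq_zero_of_dvd hd)
  have hq : (i + 1) / ((a + b) * s) = i / ((a + b) * s) := Nat.succ_div_of_not_dvd hnd
  have e1 := Nat.div_add_mod (i + 1) ((a + b) * s)
  have e2 := Nat.div_add_mod i ((a + b) * s)
  rw [hq] at e1
  have hm : (i + 1) % ((a + b) * s) = i % ((a + b) * s) + 1 := by omega
  unfold bitW
  rw [← Nat.div_div_eq_div_mul i ((a + b) * s) m, ← Nat.div_div_eq_div_mul (i + 1) ((a + b) * s) m, hq, hm]
  congr 1
  rw [hm] at h2
  have h3 : (a * s ≤ i % ((a + b) * s)) ↔ (a * s ≤ i % ((a + b) * s) + 1) := by omega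
  exact decide_eq_decide.2 h3

theorem rbw_sep (a b s m : ℕ) (hb : 1 ≤ b) (hab : b ≤ a) (hs : 1 ≤ s) (i j : ℕ) (hij : i < j)
    (hi : bitW a b s m i ≠ bitW a b s m (i + 1)) (hj : bitW a b s m j ≠ bitW a b s m (j + 1)) :
    b * s ≤ j - i := by
  have ci := rbw_change a b s m hb hs i hi
  have cj := rbw_change a b s m hb hs j hj
  have e1 := Nat.div_add_mod (i + 1) ((a + b) * s)
  have e2 := Nat.div_add_mod (j + 1) ((a + b) * s)
  have hle : (i + 1) / ((a + b) * s) ≤ (j + 1) / ((a + b) * s) := Nat.div_le_div_right (by omega)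
  have hn : (a + b) * s = a * s + b * s := by ring
  have hbs : b * s ≤ a * s := Nat.mul_le_mul_right _ hab
  rcases Nat.eq_or_lt_of_le hle with heq | hlt
  · rw [heq] at e1
    rcases ci with ci | ci <;> rcases cj with cj | cj <;> rw [ci] at e1 <;> rw [cj] at e2 <;> omega
  · have h3 : (a + b) * s * ((i + 1) / ((a + b) * s)) + (a + b) * s ≤
        (a + b) * s * ((j + 1) / ((a + b) * s)) := by
      have h4 : (a + b) * s * ((i + 1) / ((a + b) * s) + 1) ≤
          (a + b) * s * ((j + 1) / ((a + b) * s)) := Nat.mul_le_mul_left _ hlt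
      rw [Nat.mul_add, Nat.mul_one] at h4
      exact h4
    generalize (a + b) * s * ((i + 1) / ((a + b) * s)) = p at *
    generalize (a + b) * s * ((j + 1) / ((a + b) * s)) = p' at *
    rcases ci with ci | ci <;> rcases cj with cj | cj <;> rw [ci] at e1 <;> rw [cj] at e2 <;> omega

theorem runs_bitW (a b s m : ℕ) (hb : 1 ≤ b) (hab : b ≤ a) (hs : 1 ≤ s) (hm : 1 ≤ m)
    (x σ : List Bool) (hx : Fac (bitW a b s m) x) (hσ : σ.Sublist x) :
    b * s * runs σ ≤ x.length + 2 * (b * s) := by
  obtain ⟨t, len, rfl⟩ := hx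
  have h := rbw_general (bitW a b s m) (b * s)
    (fun i j hij hi hj => rbw_sep a b s m hb hab hs i j hij hi hj) t len σ hσ
  rw [List.length_map, List.length_range']
  exact h

theorem cbw_shift (a b s m : ℕ) (hR : 0 < (a + b) * s * m) (i : ℕ) :
    bitW a b s m (i + (a + b) * s * m) = !bitW a b s m i := by
  unfold bitW
  have h1 : (i + (a + b) * s * m) / ((a + b) * s * m) = i / ((a + b) * s * m) + 1 :=
    Nat.add_div_right i hR
  have h2 : (i + (a + b) * s * m) % ((a + b) * s) = i % ((a + b) * s) :=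
    Nat.add_mul_mod_self_left _ _ _
  rw [h1, h2]
  generalize i / ((a + b) * s * m) = q
  generalize decide (a * s ≤ i % ((a + b) * s)) = d
  rcases Nat.mod_two_eq_zero_or_one q with h | h
  · have h3 : (q + 1) % 2 = 1 := by omega
    rw [h, h3]
    cases d <;> rfl
  · have h3 : (q + 1) % 2 = 0 := by omega
    rw [h, h3]
    cases d <;> rfl

theorem cbw_pair (l : List ℕ) (f g : ℕ → Bool) (h : ∀ i, g i = !f i) (c : Bool) :
    (l.map f).count c + (l.map g).count c = l.length := by
  induction l with
  | nil => simp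
  | cons a l ih =>
    simp only [List.map_cons, List.count_cons, h a, List.length_cons]
    cases f a <;> cases c <;> simp <;> omega

theorem cbw_main (f : ℕ → Bool) (R : ℕ) (hR : 0 < R) (hf : ∀ i, f (i + R) = !f i) (c : Bool) :
    ∀ len t : ℕ, 2 * ((List.range len).map (fun i => f (t + i))).count c ≤ len + 2 * R := by
  intro len
  induction len using Nat.strong_induction_on with
  | _ len ih =>
    intro t
    by_cases hl : len ≤ 2 * R
    · have h1 := List.count_le_length (a := c) (l := (List.range len).map (fun i => f (t + i)))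
      rw [List.length_map, List.length_range] at h1
      omega
    · obtain ⟨k, rfl⟩ : ∃ k, len = R + R + k := ⟨len - 2 * R, by omega⟩
      have h2 := ih k (by omega) (t + (R + R))
      have h3 := cbw_pair (List.range R) (fun i => f (t + i)) (fun i => f (t + (R + i)))
        (fun i => by
          have := hf (t + i)
          rw [← this]
          congr 1
          omega) c
      rw [List.length_range] at h3
      rw [List.range_add, List.range_add, List.map_append, List.map_append, List.count_append,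
        List.count_append, List.map_map, List.map_map]
      have e1 : ((fun i => f (t + i)) ∘ fun x => R + x) = fun i => f (t + (R + i)) := rfl
      have e2 : ((fun i => f (t + i)) ∘ fun x => R + R + x) = fun i => f (t + (R + R) + i) := by
        funext x
        simp only [Function.comp]
        congr 1
        omega
      rw [e1, e2]
      omega

theorem count_bitW (a b s m : ℕ) (hb : 1 ≤ b) (hab : b ≤ a) (hs : 1 ≤ s) (hm : 1 ≤ m)
    (x : List Bool) (hx : Fac (bitW a b s m) x) (c : Bool) :
    2 * x.count c ≤ x.length + 2 * ((a + b) * s * m) := by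
  obtain ⟨t, len, rfl⟩ := hx
  have hR : 0 < (a + b) * s * m := by positivity
  have h := cbw_main (bitW a b s m) _ hR (cbw_shift a b s m hR) c len t
  rw [List.range'_eq_map_range, List.map_map, List.length_map, List.length_range]
  exact h

set_option maxHeartbeats 4000000

namespace MDaux

/-- remaining length of the current run -/
def rem (a b s t : ℕ) : ℕ :=
  if t % ((a + b) * s) < a * s then a * s - t % ((a + b) * s)
  else (a + b) * s - t % ((a + b) * s)

/-- potential -/
def phi (a b s : ℕ) (isc : Prop) [Decidable isc] (r : ℕ) (dc : Prop) [Decidable dc] : ℤ :=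
  if isc then (if dc then (b : ℤ) ^ 2 * r else (a : ℤ) ^ 2 * b * s - a * b * r)
  else (if dc then (b : ℤ) ^ 2 * a * s - a * b * r else (a : ℤ) ^ 2 * r)

theorem succ_mod (P t : ℕ) (hP : 0 < P) :
    (t % P + 1 < P ∧ (t + 1) % P = t % P + 1) ∨ (t % P + 1 = P ∧ (t + 1) % P = 0) := by
  have h1 := Nat.mod_lt t hP
  have h2 : (t + 1) % P = (t % P + 1) % P := by rw [Nat.mod_add_mod]
  rcases Nat.lt_or_ge (t % P + 1) P with h | h
  · left
    exact ⟨h, by rw [h2, Nat.mod_eq_of_lt h]⟩
  · right
    have h3 : t % P + 1 = P := by omega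
    exact ⟨h3, by rw [h2, h3, Nat.mod_self]⟩

theorem facts (a b s t : ℕ) (hb : 1 ≤ b) (hab : b ≤ a) (hs : 1 ≤ s) :
    1 ≤ rem a b s t ∧
    (t % ((a + b) * s) < a * s → rem a b s t ≤ a * s) ∧
    (¬ t % ((a + b) * s) < a * s → rem a b s t ≤ b * s) ∧
    (2 ≤ rem a b s t → ((t + 1) % ((a + b) * s) < a * s ↔ t % ((a + b) * s) < a * s) ∧
      rem a b s (t + 1) + 1 = rem a b s t) ∧
    (rem a b s t = 1 → (t % ((a + b) * s) < a * s → ¬ (t + 1) % ((a + b) * s) < a * s ∧
        rem a b s (t + 1) = b * s) ∧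
      (¬ t % ((a + b) * s) < a * s → (t + 1) % ((a + b) * s) < a * s ∧
        rem a b s (t + 1) = a * s)) := by
  have hP : (a + b) * s = a * s + b * s := by ring
  have hbs : 1 ≤ b * s := Nat.one_le_iff_ne_zero.mpr (by positivity)
  have has : 1 ≤ a * s := Nat.one_le_iff_ne_zero.mpr (by
    have : 1 ≤ a := hb.trans hab
    positivity)
  have hPpos : 0 < (a + b) * s := by omega
  have hm := Nat.mod_lt t hPpos
  have hs' := succ_mod ((a + b) * s) t hPpos
  unfold rem
  generalize t % ((a + b) * s) = u at *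
  generalize (t + 1) % ((a + b) * s) = u' at *
  generalize a * s = A at *
  generalize b * s = B at *
  generalize (a + b) * s = P at *
  subst hP
  refine ⟨?_, ?_, ?_, ?_, ?_⟩
  · split_ifs <;> omega
  · intro h; rw [if_pos h]; omega
  · intro h; rw [if_neg h]; omega
  · intro h
    rcases hs' with ⟨h1, h2⟩ | ⟨h1, h2⟩
    · subst h2
      split_ifs at h ⊢ <;> constructor <;> omega
    · subst h2
      split_ifs at h ⊢ <;> constructor <;> omega
  · intro h
    rcases hs' with ⟨h1, h2⟩ | ⟨h1, h2⟩
    · subst h2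
      split_ifs at h ⊢ <;> constructor <;> intro h3 <;> constructor <;> omega
    · subst h2
      split_ifs at h ⊢ <;> constructor <;> intro h3 <;> constructor <;> omega

theorem med_val (a b s : ℕ) (c : Bool) (i : ℕ) :
    med a b s c i = if i % ((a + b) * s) < a * s then c else !c := by
  unfold med
  by_cases h : i % ((a + b) * s) < a * s
  · rw [if_pos h, decide_eq_false (by omega)]; simp
  · rw [if_neg h, decide_eq_true (by omega)]; simp

theorem main (a b s : ℕ) (hb : 1 ≤ b) (hab : b ≤ a) (hs : 1 ≤ s) (c : Bool) (len : ℕ) :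
    ∀ (t : ℕ) (d : Bool) (τ : List Bool),
      (d :: τ).Sublist ((List.range' t len).map (med a b s c)) →
      ((a + b : ℤ)) * (b * ((d :: τ).count c : ℕ) + a * ((d :: τ).count (!c) : ℕ)) ≤
        a * b * len + (a : ℤ) ^ 2 * b * s * ((runs (d :: τ) : ℕ) - 1) +
          phi a b s (t % ((a + b) * s) < a * s) (rem a b s t) (d = c) := by
  have hbz : (1 : ℤ) ≤ b := by exact_mod_cast hb
  have habz : (b : ℤ) ≤ a := by exact_mod_cast hab
  have hsz : (1 : ℤ) ≤ s := by exact_mod_cast hs
  induction len with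
  | zero =>
    intro t d τ h
    simp at h
  | succ len ih =>
    intro t d τ h
    rw [List.range'_succ, List.map_cons] at h
    obtain ⟨f1, f2, f3, f4, f5⟩ := facts a b s t hb hab hs
    set r := rem a b s t with hr
    set r' := rem a b s (t + 1) with hr'
    -- the drop step on potentials
    have hdrop : phi a b s ((t + 1) % ((a + b) * s) < a * s) r' (d = c) ≤
        phi a b s (t % ((a + b) * s) < a * s) r (d = c) + a * b := by
      unfold phi
      rcases Nat.lt_or_ge r 2 with h2 | h2
      · have h1 : r = 1 := by omega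
        obtain ⟨g1, g2⟩ := f5 h1
        by_cases hc : t % ((a + b) * s) < a * s
        · obtain ⟨k1, k2⟩ := g1 hc
          rw [if_neg k1, if_pos hc, k2, h1]
          push_cast
          split_ifs <;> nlinarith [mul_pos (by linarith : (0:ℤ) < b) (by linarith : (0:ℤ) < a)]
        · obtain ⟨k1, k2⟩ := g2 hc
          rw [if_pos k1, if_neg hc, k2, h1]
          push_cast
          split_ifs <;> nlinarith [mul_pos (by linarith : (0:ℤ) < b) (by linarith : (0:ℤ) < a)]
      · obtain ⟨g1, g2⟩ := f4 h2
        have g3 : (r : ℤ) = r' + 1 := by exact_mod_cast g2.symm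
        rw [g3]
        by_cases hc : t % ((a + b) * s) < a * s
        · rw [if_pos (g1.mpr hc), if_pos hc]
          split_ifs <;> nlinarith [mul_pos (by linarith : (0:ℤ) < b) (by linarith : (0:ℤ) < a)]
        · rw [if_neg (fun h => hc (g1.mp h)), if_neg hc]
          split_ifs <;> nlinarith [mul_pos (by linarith : (0:ℤ) < b) (by linarith : (0:ℤ) < a)]
    rcases List.sublist_cons_iff.mp h with h1 | ⟨σ', hσ', h1⟩
    · have := ih (t + 1) d τ h1
      push_cast
      linarith
    · have hd : d = med a b s c t := by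
        have := List.head_eq_of_cons_eq hσ'
        exact this
      have hτ : τ = σ' := List.tail_eq_of_cons_eq hσ'
      subst hτ
      have hr1 : (1 : ℤ) ≤ r := by exact_mod_cast f1
      have habpos : (0 : ℤ) < a * b := mul_pos (by linarith) (by linarith)
      cases τ with
      | nil =>
        have hlen : (0 : ℤ) ≤ a * b * len := by positivity
        rw [med_val] at hd
        unfold phi
        by_cases hc : t % ((a + b) * s) < a * s
        · rw [if_pos hc] at hd ⊢
          subst hd
          rw [if_pos rfl]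
          simp [runs]
          nlinarith
        · rw [if_neg hc] at hd ⊢
          subst hd
          rw [if_neg (by simp)]
          simp [runs]
          nlinarith
      | cons e ρ =>
        have hI := ih (t + 1) e ρ h1
        rw [← hr'] at hI
        rw [med_val] at hd
        have hcount : ∀ x : Bool, (((d :: e :: ρ).count x : ℕ) : ℤ) =
            ((e :: ρ).count x : ℕ) + (if d = x then 1 else 0) := by
          intro x
          rw [List.count_cons]
          push_cast
          congr 1
          by_cases hx : d = x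
          · simp [hx]
          · simp [hx]
        have hruns : ((runs (d :: e :: ρ) : ℕ) : ℤ) = (if d = e then 0 else 1) + (runs (e :: ρ) : ℕ) := by
          simp only [runs]
          push_cast
          rfl
        rw [hcount, hcount, hruns]
        generalize ((e :: ρ).count c : ℕ) = n1 at *
        generalize ((e :: ρ).count (!c) : ℕ) = n2 at *
        generalize ((runs (e :: ρ) : ℕ) : ℤ) = R at *
        have hM : (b : ℤ) ^ 2 * a * s ≤ (a : ℤ) ^ 2 * b * s := by
          nlinarith [mul_nonneg (mul_nonneg habpos.le (by linarith : (0:ℤ) ≤ s))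
            (sub_nonneg.mpr habz)]
        have hr' : (0 : ℤ) ≤ r' := by positivity
        unfold phi at hI ⊢
        by_cases hc : t % ((a + b) * s) < a * s
        · rw [if_pos hc] at hd ⊢
          subst hd
          rw [if_pos rfl, if_neg (by simp : ¬ (d = !d))]
          simp only [if_true]
          rcases Nat.lt_or_ge r 2 with h2 | h2
          · have h1 : r = 1 := by omega
            obtain ⟨g1, g2⟩ := f5 h1
            obtain ⟨k1, k2⟩ := g1 hc
            rw [if_neg k1, k2] at hI
            rw [h1]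
            push_cast at hI ⊢
            by_cases he : e = d
            · subst he
              simp only [if_true] at hI ⊢
              nlinarith
            · rw [if_neg he] at hI
              rw [if_neg (fun h => he h.symm)]
              nlinarith
          · obtain ⟨g1, g2⟩ := f4 h2
            have g3 : (r : ℤ) = r' + 1 := by exact_mod_cast g2.symm
            rw [if_pos (g1.mpr hc)] at hI
            rw [g3]
            push_cast at hI ⊢
            by_cases he : e = d
            · subst he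
              simp only [if_true] at hI ⊢
              nlinarith
            · rw [if_neg he] at hI
              rw [if_neg (fun h => he h.symm)]
              nlinarith [mul_nonneg (mul_nonneg (by linarith : (0:ℤ) ≤ b) (by linarith : (0:ℤ) ≤ a + b)) hr']
        · rw [if_neg hc] at hd ⊢
          have hdc : ¬ (d = c) := by rw [hd]; simp
          rw [if_neg hdc]
          have hdc' : d = !c := hd
          rw [if_pos hdc', if_neg hdc]
          rcases Nat.lt_or_ge r 2 with h2 | h2
          · have h1 : r = 1 := by omega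
            obtain ⟨g1, g2⟩ := f5 h1
            obtain ⟨k1, k2⟩ := g2 hc
            rw [if_pos k1, k2] at hI
            rw [h1]
            push_cast at hI ⊢
            by_cases he : e = c
            · rw [if_pos he] at hI
              rw [if_neg (fun h => hdc (h.trans he))]
              nlinarith
            · rw [if_neg he] at hI
              have : d = e := by
                rw [hdc']
                cases e <;> cases c <;> simp_all
              rw [if_pos this]
              nlinarith
          · obtain ⟨g1, g2⟩ := f4 h2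
            have g3 : (r : ℤ) = r' + 1 := by exact_mod_cast g2.symm
            rw [if_neg (fun h => hc (g1.mp h))] at hI
            rw [g3]
            push_cast at hI ⊢
            by_cases he : e = c
            · rw [if_pos he] at hI
              rw [if_neg (fun h => hdc (h.trans he))]
              nlinarith [mul_nonneg (mul_nonneg (by linarith : (0:ℤ) ≤ a) (by linarith : (0:ℤ) ≤ a + b)) hr']
            · rw [if_neg he] at hI
              have : d = e := by
                rw [hdc']
                cases e <;> cases c <;> simp_all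
              rw [if_pos this]
              nlinarith

end MDaux

theorem med_density (a b s : ℕ) (hb : 1 ≤ b) (hab : b ≤ a) (hs : 1 ≤ s) (c : Bool)
    (x σ : List Bool) (hx : Fac (med a b s c) x) (hσ : σ.Sublist x) :
    (a + b) * (b * σ.count c + a * σ.count (!c)) ≤ a * b * x.length + a ^ 2 * b * s * runs σ := by
  obtain ⟨t, len, rfl⟩ := hx
  cases σ with
  | nil => simp [runs]
  | cons d τ =>
    have h := MDaux.main a b s hb hab hs c len t d τ hσ
    obtain ⟨f1, f2, f3, _, _⟩ := MDaux.facts a b s t hb hab hs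
    have hbz : (1 : ℤ) ≤ b := by exact_mod_cast hb
    have habz : (b : ℤ) ≤ a := by exact_mod_cast hab
    have hsz : (1 : ℤ) ≤ s := by exact_mod_cast hs
    have habpos : (0 : ℤ) < a * b := mul_pos (by linarith) (by linarith)
    have hM : (b : ℤ) ^ 2 * a * s ≤ (a : ℤ) ^ 2 * b * s := by
      nlinarith [mul_nonneg (mul_nonneg habpos.le (by linarith : (0:ℤ) ≤ s))
        (sub_nonneg.mpr habz)]
    have hphi : MDaux.phi a b s (t % ((a + b) * s) < a * s) (MDaux.rem a b s t) (d = c) ≤
        (a : ℤ) ^ 2 * b * s := by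
      unfold MDaux.phi
      have hr0 : (0 : ℤ) ≤ (MDaux.rem a b s t : ℕ) := by positivity
      by_cases hc : t % ((a + b) * s) < a * s
      · rw [if_pos hc]
        have h2 : ((MDaux.rem a b s t : ℕ) : ℤ) ≤ a * s := by exact_mod_cast f2 hc
        split_ifs
        · nlinarith [mul_le_mul_of_nonneg_left h2 (by positivity : (0:ℤ) ≤ (b:ℤ)^2)]
        · nlinarith [mul_nonneg habpos.le hr0]
      · rw [if_neg hc]
        have h2 : ((MDaux.rem a b s t : ℕ) : ℤ) ≤ b * s := by exact_mod_cast f3 hc
        split_ifs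
        · nlinarith [mul_nonneg habpos.le hr0]
        · nlinarith [mul_le_mul_of_nonneg_left h2 (by positivity : (0:ℤ) ≤ (a:ℤ)^2)]
    have h3 : ((a + b : ℤ)) * (b * ((d :: τ).count c : ℕ) + a * ((d :: τ).count (!c) : ℕ)) ≤
        a * b * len + (a : ℤ) ^ 2 * b * s * (runs (d :: τ) : ℕ) := by
      nlinarith
    rw [List.length_map, List.length_range']
    exact_mod_cast h3

theorem split_bitW_aux (R : ℕ) (hR : 0 < R) (f : ℕ → Bool) (g : Bool → ℕ → Bool)
    (hfg : ∀ i, f i = g (decide (i / R % 2 = 1)) i) : ∀ len t : ℕ,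
    ∃ ys : List (List Bool), (List.range' t len).map f = ys.flatten ∧
      (∀ y ∈ ys, ∃ c, Fac (g c) y) ∧ ys.length * R ≤ len + t % R + R := by
  intro len
  induction len using Nat.strong_induction_on with
  | _ len ih =>
    intro t
    rcases Nat.eq_zero_or_pos len with h0 | h0
    · refine ⟨[], by simp [h0], by simp, by simp⟩
    · have hmod : t % R < R := Nat.mod_lt _ hR
      have hdm := Nat.div_add_mod t R
      -- the first piece
      have hfirst : ∀ l1, l1 ≤ R - t % R → (List.range' t l1).map f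
          = (List.range' t l1).map (g (decide (t / R % 2 = 1))) := by
        intro l1 hl1
        apply List.map_congr_left
        intro i hi
        rw [List.mem_range'_1] at hi
        have h1 : i / R = t / R := by
          apply Nat.div_eq_of_lt_le
          · rw [mul_comm]; omega
          · rw [add_mul, one_mul, mul_comm]; omega
        rw [hfg i, h1]
      by_cases hl : len ≤ R - t % R
      · refine ⟨[(List.range' t len).map f], by simp, ?_, ?_⟩
        · intro y hy
          rw [List.mem_singleton] at hy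
          exact ⟨decide (t / R % 2 = 1), t, len, by rw [hy, hfirst len hl]⟩
        · simp only [List.length_singleton, one_mul]
          omega
      · push Not at hl
        obtain ⟨ys, h1, h2, h3⟩ := ih (len - (R - t % R)) (by omega) (t + (R - t % R))
        refine ⟨(List.range' t (R - t % R)).map f :: ys, ?_, ?_, ?_⟩
        · rw [List.flatten_cons, ← h1, ← List.map_append, List.range'_append_1]
          congr 2
          omega
        · intro y hy
          rcases List.mem_cons.1 hy with hy | hy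
          · exact ⟨decide (t / R % 2 = 1), t, R - t % R, by rw [hy, hfirst _ le_rfl]⟩
          · exact h2 y hy
        · have h4 : (t + (R - t % R)) % R = 0 := by
            have : t + (R - t % R) = R * (t / R + 1) := by
              rw [mul_add, mul_one]; omega
            rw [this]
            exact Nat.mul_mod_right _ _
          rw [h4] at h3
          rw [List.length_cons, add_mul, one_mul]
          omega

theorem split_bitW (a b s m : ℕ) (hb : 1 ≤ b) (hab : b ≤ a) (hs : 1 ≤ s) (hm : 1 ≤ m)
    (x : List Bool) (hx : Fac (bitW a b s m) x) :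
    ∃ ys : List (List Bool), x = ys.flatten ∧ (∀ y ∈ ys, ∃ c, Fac (med a b s c) y) ∧
      ys.length * ((a + b) * s * m) ≤ x.length + 2 * ((a + b) * s * m) := by
  obtain ⟨t, len, rfl⟩ := hx
  have hR : 0 < (a + b) * s * m := by positivity
  obtain ⟨ys, h1, h2, h3⟩ := split_bitW_aux ((a + b) * s * m) hR (bitW a b s m) (med a b s)
    (fun i => rfl) len t
  refine ⟨ys, h1, h2, ?_⟩
  have hmod : t % ((a + b) * s * m) < (a + b) * s * m := Nat.mod_lt _ hR
  rw [List.length_map, List.length_range']
  omega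

theorem cellV_one (a b D sP mP sQ : ℕ) (hb : 1 ≤ b) (hab : b ≤ a)
    (hq : 2 * a * b + b ^ 2 ≤ a ^ 2)
    (hsP : 1 ≤ sP) (hmP : 1 ≤ mP) (hsQ : 1 ≤ sQ)
    (h1 : D * sQ ≤ sP) (c : Bool)
    (x y σ : List Bool) (hx : Fac (bitW a b sP mP) x) (hy : Fac (med a b sQ c) y)
    (s1 : σ.Sublist x) (s2 : σ.Sublist y) :
    D * b * (3 * a + b) * σ.length ≤ D * a * b * (x.length + y.length)
      + 2 * D * a * b * ((a + b) * sP * mP) + a ^ 2 * (x.length + 2 * (b * sP)) := by
  have hc : σ.count (!c) + σ.count c = σ.length := List.count_not_add_count σ c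
  have k1 : 2 * σ.count c ≤ x.length + 2 * ((a + b) * sP * mP) :=
    (Nat.mul_le_mul_left 2 (s1.count_le c)).trans (count_bitW a b sP mP hb hab hsP hmP x hx c)
  have k2 := med_density a b sQ hb hab hsQ c y σ hy s2
  have k3 := runs_bitW a b sP mP hb hab hsP hmP x σ hx s1
  rw [← hc]
  generalize σ.count c = z at *
  generalize σ.count (!c) = o at *
  generalize runs σ = r at *
  generalize x.length = X at *
  generalize y.length = Y at *
  generalize (a + b) * sP * mP = R at *
  have e1 : D * a * b * (2 * z) ≤ D * a * b * (X + 2 * R) := Nat.mul_le_mul_left _ k1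
  have e2 : D * ((a + b) * (b * z + a * o)) ≤ D * (a * b * Y + a ^ 2 * b * sQ * r) :=
    Nat.mul_le_mul_left _ k2
  have e3 : D * sQ * (a ^ 2 * b * r) ≤ sP * (a ^ 2 * b * r) := Nat.mul_le_mul_right _ h1
  have e4 : a ^ 2 * (b * sP * r) ≤ a ^ 2 * (X + 2 * (b * sP)) := Nat.mul_le_mul_left _ k3
  have e5 : D * o * (2 * a * b + b ^ 2) ≤ D * o * a ^ 2 := Nat.mul_le_mul_left _ hq
  nlinarith [e1, e2, e3, e4, e5]

theorem cellV_ind (a b D sP mP sQ : ℕ) (hb : 1 ≤ b) (hab : b ≤ a)
    (hq : 2 * a * b + b ^ 2 ≤ a ^ 2)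
    (hsP : 1 ≤ sP) (hmP : 1 ≤ mP) (hsQ : 1 ≤ sQ)
    (h1 : D * sQ ≤ sP) (ys : List (List Bool)) (hys : ∀ y ∈ ys, ∃ c, Fac (med a b sQ c) y) :
    ∀ (x σ : List Bool) (_ : Fac (bitW a b sP mP) x) (_ : σ.Sublist x)
      (_ : σ.Sublist ys.flatten),
    D * b * (3 * a + b) * σ.length ≤ D * a * b * (x.length + ys.flatten.length)
      + a ^ 2 * x.length + ys.length * (2 * D * a * b * ((a + b) * sP * mP) + 2 * a ^ 2 * b * sP) := by
  induction ys with
  | nil =>
    intro x σ hx s1 s2
    rw [List.flatten_nil, List.sublist_nil] at s2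
    subst s2
    simp
  | cons y1 ys ih =>
    intro x σ hx s1 s2
    rw [List.flatten_cons] at s2
    obtain ⟨σ1, σ2, rfl, t1, t2⟩ := List.sublist_append_iff.mp s2
    obtain ⟨x1, x2, rfl, u1, u2⟩ := List.append_sublist_iff.mp s1
    obtain ⟨c, hc⟩ := hys y1 (List.mem_cons_self)
    have hx1 : Fac (bitW a b sP mP) x1 := fac_infix _ _ _ hx (List.prefix_append x1 x2).isInfix
    have hx2 : Fac (bitW a b sP mP) x2 := fac_infix _ _ _ hx (List.suffix_append x1 x2).isInfix
    have k1 := cellV_one a b D sP mP sQ hb hab hq hsP hmP hsQ h1 c x1 y1 σ1 hx1 hc u1 t1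
    have k2 := ih (fun y hy => hys y (List.mem_cons_of_mem _ hy)) x2 σ2 hx2 u2 t2
    rw [List.length_append, List.length_append, List.flatten_cons, List.length_append,
      List.length_cons]
    nlinarith [k1, k2]

theorem cellV (a b D sP mP sQ mQ : ℕ) (hb : 1 ≤ b) (hab : b ≤ a)
    (hq : 2 * a * b + b ^ 2 ≤ a ^ 2) (hD : 1 ≤ D)
    (hsP : 1 ≤ sP) (hmP : 1 ≤ mP) (hsQ : 1 ≤ sQ) (hmQ : 1 ≤ mQ)
    (h1 : D * sQ ≤ sP) (h2 : D * ((a + b) * sP * mP) ≤ (a + b) * sQ * mQ)
    (x y σ : List Bool) (hx : Fac (bitW a b sP mP) x) (hy : Fac (bitW a b sQ mQ) y)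
    (s1 : σ.Sublist x) (s2 : σ.Sublist y) :
    D * b * (3 * a + b) * σ.length ≤ (D * a * b + 4 * a ^ 2 * b) * (x.length + y.length)
      + 8 * a ^ 2 * b * ((a + b) * sQ * mQ) := by
  obtain ⟨ys, hys, hmed, hlen⟩ := split_bitW a b sQ mQ hb hab hsQ hmQ y hy
  have k1 := cellV_ind a b D sP mP sQ hb hab hq hsP hmP hsQ h1 ys hmed x σ hx s1 (hys ▸ s2)
  rw [← hys] at k1
  have ha : 1 ≤ a := hb.trans hab
  have hsR : sP ≤ (a + b) * sP * mP := by
    calc sP = 1 * sP * 1 := by ring
      _ ≤ (a + b) * sP * mP := Nat.mul_le_mul (Nat.mul_le_mul_right _ (by omega)) hmP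
  have hRD : (a + b) * sP * mP ≤ D * ((a + b) * sP * mP) := Nat.le_mul_of_pos_left _ hD
  have hsQ' : sP ≤ (a + b) * sQ * mQ := hsR.trans (hRD.trans h2)
  generalize (a + b) * sP * mP = RP at *
  generalize (a + b) * sQ * mQ = RQ at *
  have e1 : 2 * D * a * b * RP + 2 * a ^ 2 * b * sP ≤ (2 * a * b + 2 * a ^ 2 * b) * RQ := by
    have f1 : 2 * a * b * (D * RP) ≤ 2 * a * b * RQ := Nat.mul_le_mul_left _ h2
    have f2 : 2 * a ^ 2 * b * sP ≤ 2 * a ^ 2 * b * RQ := Nat.mul_le_mul_left _ hsQ'
    calc 2 * D * a * b * RP + 2 * a ^ 2 * b * sP = 2 * a * b * (D * RP) + 2 * a ^ 2 * b * sP := by ring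
      _ ≤ 2 * a * b * RQ + 2 * a ^ 2 * b * RQ := Nat.add_le_add f1 f2
      _ = _ := by ring
  have e2 : ys.length * (2 * D * a * b * RP + 2 * a ^ 2 * b * sP) ≤
      (2 * a * b + 2 * a ^ 2 * b) * (y.length + 2 * RQ) := by
    calc ys.length * (2 * D * a * b * RP + 2 * a ^ 2 * b * sP)
        ≤ ys.length * ((2 * a * b + 2 * a ^ 2 * b) * RQ) := Nat.mul_le_mul_left _ e1
      _ = (2 * a * b + 2 * a ^ 2 * b) * (ys.length * RQ) := by ring
      _ ≤ _ := Nat.mul_le_mul_left _ hlen
  have e3 : 2 * a * b + 2 * a ^ 2 * b ≤ 4 * a ^ 2 * b := by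
    have : a * b * 1 ≤ a * b * a := Nat.mul_le_mul_left _ ha
    nlinarith
  have e4 : (2 * a * b + 2 * a ^ 2 * b) * (y.length + 2 * RQ) ≤ 4 * a ^ 2 * b * (y.length + 2 * RQ) :=
    Nat.mul_le_mul_right _ e3
  have e5 : a ^ 2 * x.length ≤ 4 * a ^ 2 * b * x.length := by
    apply Nat.mul_le_mul_right
    have : a ^ 2 * 1 ≤ a ^ 2 * b := Nat.mul_le_mul_left _ hb
    nlinarith
  calc D * b * (3 * a + b) * σ.length
      ≤ D * a * b * (x.length + y.length) + a ^ 2 * x.length +
        ys.length * (2 * D * a * b * RP + 2 * a ^ 2 * b * sP) := k1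
    _ ≤ D * a * b * (x.length + y.length) + 4 * a ^ 2 * b * x.length +
        4 * a ^ 2 * b * (y.length + 2 * RQ) :=
        Nat.add_le_add (Nat.add_le_add_left e5 _) (e2.trans e4)
    _ = _ := by ring

theorem main_indV {K : ℕ} (A B E L : ℕ) (w : Fin K → List Bool) (Ty : Fin K → List Bool → Prop)
    (hL : ∀ a, (w a).length = L) (hT : ∀ a, Ty a (w a))
    (hinf : ∀ a x z, Ty a x → z <:+: x → Ty a z)
    (hcell : ∀ a b, a ≠ b → ∀ x y σ : List Bool, Ty a x → Ty b y → σ.Sublist x → σ.Sublist y →
      A * σ.length ≤ B * (x.length + y.length) + E)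
    (x : List Bool) (a : Fin K) (as : List (Fin K)) (y : List Bool) (b : Fin K)
    (bs : List (Fin K)) (σ : List Bool)
    (hx : Ty a x) (hy : Ty b y) (hxL : x.length ≤ L) (hyL : y.length ≤ L)
    (h1 : σ.Sublist (x ++ cat w as)) (h2 : σ.Sublist (y ++ cat w bs)) :
    A * σ.length ≤ B * (x.length + y.length + L * (as.length + bs.length))
      + E * (as.length + bs.length + 1) + A * L * MM (a :: as) (b :: bs) := by
  have cellV : ∀ (x : List Bool) (a : Fin K) (y : List Bool) (b : Fin K) (σ : List Bool),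
      Ty a x → Ty b y → x.length ≤ L → σ.Sublist x → σ.Sublist y →
      A * σ.length ≤ B * (x.length + y.length) + E + A * L * (if a = b then 1 else 0) := by
    intro x a y b σ hx hy hxL h1 h2
    by_cases hab : a = b
    · rw [if_pos hab, mul_one]
      have h3 := h1.length_le
      have h4 : A * σ.length ≤ A * L := Nat.mul_le_mul_left _ (h3.trans hxL)
      exact h4.trans (Nat.le_add_left _ _)
    · rw [if_neg hab, mul_zero, add_zero]
      exact hcell a b hab x y σ hx hy h1 h2
  obtain ⟨n, hn⟩ : ∃ n, as.length + bs.length = n := ⟨_, rfl⟩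
  induction n using Nat.strong_induction_on generalizing x a as y b bs σ with
  | _ n ih =>
  have hMM : MM (a :: as) (b :: bs) = (if a = b then 1 else 0) +
      max (MM as (b :: bs)) (MM (a :: as) bs) := by rw [MM]
  obtain ⟨σ1, σ2, hσ, hs1, hs2⟩ := List.sublist_append_iff.mp h1
  obtain ⟨τ1, τ2, hτ, ht1, ht2⟩ := List.sublist_append_iff.mp h2
  have heq : σ1 ++ σ2 = τ1 ++ τ2 := by rw [← hσ, ← hτ]
  rcases List.append_eq_append_iff.mp heq with ⟨ρ, hρ1, hρ2⟩ | ⟨ρ, hρ1, hρ2⟩
  · -- τ1 = σ1 ++ ρ, σ2 = ρ ++ τ2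
    rw [hρ1] at ht1
    obtain ⟨y1, y2, hyy, hy1, hy2⟩ := List.append_sublist_iff.mp ht1
    have hgy1 : Ty b y1 := hinf _ _ _ hy (by rw [hyy]; exact (List.prefix_append y1 y2).isInfix)
    have hgy2 : Ty b y2 := hinf _ _ _ hy (by rw [hyy]; exact (List.suffix_append y1 y2).isInfix)
    have hcell := cellV x a y1 b σ1 hx hgy1 hxL hs1 hy1
    have hylen : y.length = y1.length + y2.length := by rw [hyy, List.length_append]
    have hσlen : σ.length = σ1.length + σ2.length := by rw [hσ, List.length_append]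
    rcases as with _ | ⟨a1, as1⟩
    · have hσ2 : σ2 = [] := by
        simpa [cat] using hs2
      have h0 : σ2.length = 0 := by rw [hσ2]; rfl
      rw [hMM]
      set e : ℕ := if a = b then 1 else 0
      set m : ℕ := max (MM [] (b :: bs)) (MM [a] bs)
      rw [hσlen, h0, hylen]
      simp only [List.length_nil, zero_add, add_zero]
      have g1 : 0 ≤ B * (y2.length + L * bs.length) := Nat.zero_le _
      have g2 : 0 ≤ E * bs.length := Nat.zero_le _
      have g3 : 0 ≤ A * L * m := Nat.zero_le _
      linarith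
    · have hcat : cat w (a1 :: as1) = w a1 ++ cat w as1 := by simp [cat]
      rw [hcat] at hs2
      have hs2' : σ2.Sublist (y2 ++ cat w bs) := by
        rw [hρ2]
        exact List.Sublist.append hy2 ht2
      have hIH := ih (as1.length + bs.length) (by rw [← hn]; simp) (w a1) a1 as1 y2 b bs σ2
        (hT a1) hgy2 (le_of_eq (hL a1)) (by rw [hylen] at hyL; omega) hs2 hs2' rfl
      rw [hL a1] at hIH
      have hM2 : (if a = b then 1 else 0) + MM (a1 :: as1) (b :: bs) ≤ MM (a :: a1 :: as1) (b :: bs) := by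
        rw [hMM]
        exact Nat.add_le_add_left (le_max_left _ _) _
      have hM3 := Nat.mul_le_mul_left (A * L) hM2
      set e : ℕ := if a = b then 1 else 0
      set m : ℕ := MM (a :: a1 :: as1) (b :: bs)
      set m' : ℕ := MM (a1 :: as1) (b :: bs)
      rw [hσlen, hylen]
      simp only [List.length_cons]
      linarith
  · -- σ1 = τ1 ++ ρ, τ2 = ρ ++ σ2
    rw [hρ1] at hs1
    obtain ⟨x1, x2, hxx, hx1, hx2⟩ := List.append_sublist_iff.mp hs1
    have hgx1 : Ty a x1 := hinf _ _ _ hx (by rw [hxx]; exact (List.prefix_append x1 x2).isInfix)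
    have hgx2 : Ty a x2 := hinf _ _ _ hx (by rw [hxx]; exact (List.suffix_append x1 x2).isInfix)
    have hxlen : x.length = x1.length + x2.length := by rw [hxx, List.length_append]
    have hcell := cellV x1 a y b τ1 hgx1 hy (by omega) hx1 ht1
    have hσlen : σ.length = τ1.length + τ2.length := by rw [hτ, List.length_append]
    rcases bs with _ | ⟨b1, bs1⟩
    · have hτ2 : τ2 = [] := by
        simpa [cat] using ht2
      have h0 : τ2.length = 0 := by rw [hτ2]; rfl
      rw [hMM]
      set e : ℕ := if a = b then 1 else 0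
      set m : ℕ := max (MM as [b]) (MM (a :: as) [])
      rw [hσlen, h0, hxlen]
      simp only [List.length_nil, zero_add, add_zero]
      have g1 : 0 ≤ B * (x2.length + L * as.length) := Nat.zero_le _
      have g2 : 0 ≤ E * as.length := Nat.zero_le _
      have g3 : 0 ≤ A * L * m := Nat.zero_le _
      linarith
    · have hcat : cat w (b1 :: bs1) = w b1 ++ cat w bs1 := by simp [cat]
      rw [hcat] at ht2
      have ht2' : τ2.Sublist (x2 ++ cat w as) := by
        rw [hρ2]
        exact List.Sublist.append hx2 hs2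
      have hIH := ih (as.length + bs1.length) (by rw [← hn]; simp) x2 a as (w b1) b1 bs1 τ2
        hgx2 (hT b1) (by rw [hxlen] at hxL; omega) (le_of_eq (hL b1)) ht2' ht2 rfl
      rw [hL b1] at hIH
      have hM2 : (if a = b then 1 else 0) + MM (a :: as) (b1 :: bs1) ≤ MM (a :: as) (b :: b1 :: bs1) := by
        rw [hMM]
        exact Nat.add_le_add_left (le_max_right _ _) _
      have hM3 := Nat.mul_le_mul_left (A * L) hM2
      set e : ℕ := if a = b then 1 else 0
      set m : ℕ := MM (a :: as) (b :: b1 :: bs1)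
      set m' : ℕ := MM (a :: as) (b1 :: bs1)
      rw [hσlen, hxlen]
      simp only [List.length_cons]
      linarith

theorem wordV_length (a b T K : ℕ) (j : Fin K) :
    (wordV a b T K j).length = 2 * (a + b) * T ^ (2 * K) := by
  simp [wordV]

theorem catV_length (a b T K : ℕ) (js : List (Fin K)) :
    (cat (wordV a b T K) js).length = js.length * (2 * (a + b) * T ^ (2 * K)) := by
  induction js with
  | nil => simp [cat]
  | cons j js ih =>
    have h : cat (wordV a b T K) (j :: js) = wordV a b T K j ++ cat (wordV a b T K) js := by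
      simp [cat]
    rw [h, List.length_append, ih, wordV_length, List.length_cons]
    ring

theorem pair_cellV (a b T K : ℕ) (hb : 1 ≤ b) (hab : b ≤ a) (hq : 2 * a * b + b ^ 2 ≤ a ^ 2)
    (hT : 1 ≤ T) (j k : Fin K) (hjk : (j : ℕ) < k) (x y σ : List Bool)
    (hx : Fac (bitW a b (T ^ (K - (j : ℕ))) (T ^ (2 * (j : ℕ)))) x)
    (hy : Fac (bitW a b (T ^ (K - (k : ℕ))) (T ^ (2 * (k : ℕ)))) y)
    (s1 : σ.Sublist x) (s2 : σ.Sublist y) :
    T * b * (3 * a + b) * σ.length ≤ (T * a * b + 4 * a ^ 2 * b) * (x.length + y.length)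
      + 8 * a ^ 2 * b * ((a + b) * T ^ (2 * K - 1)) := by
  have hk : (k : ℕ) < K := k.2
  have h1 : T * T ^ (K - (k : ℕ)) ≤ T ^ (K - (j : ℕ)) := by
    rw [← pow_succ']
    exact Nat.pow_le_pow_right hT (by omega)
  have e1 : (a + b) * T ^ (K - (j : ℕ)) * T ^ (2 * (j : ℕ)) = (a + b) * T ^ (K + (j : ℕ)) := by
    rw [mul_assoc, ← pow_add]
    congr 2
    omega
  have e2 : (a + b) * T ^ (K - (k : ℕ)) * T ^ (2 * (k : ℕ)) = (a + b) * T ^ (K + (k : ℕ)) := by
    rw [mul_assoc, ← pow_add]
    congr 2
    omega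
  have h2 : T * ((a + b) * T ^ (K - (j : ℕ)) * T ^ (2 * (j : ℕ)))
      ≤ (a + b) * T ^ (K - (k : ℕ)) * T ^ (2 * (k : ℕ)) := by
    rw [e1, e2]
    have : T * ((a + b) * T ^ (K + (j : ℕ))) = (a + b) * T ^ (K + (j : ℕ) + 1) := by
      rw [pow_succ]; ring
    rw [this]
    exact Nat.mul_le_mul_left _ (Nat.pow_le_pow_right hT (by omega))
  have hp : ∀ n : ℕ, 1 ≤ T ^ n := fun n => Nat.one_le_pow _ _ hT
  have h3 := cellV a b T (T ^ (K - (j : ℕ))) (T ^ (2 * (j : ℕ))) (T ^ (K - (k : ℕ)))
    (T ^ (2 * (k : ℕ))) hb hab hq hT (hp _) (hp _) (hp _) (hp _) h1 h2 x y σ hx hy s1 s2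
  rw [e2] at h3
  refine h3.trans ?_
  have h4 : (a + b) * T ^ (K + (k : ℕ)) ≤ (a + b) * T ^ (2 * K - 1) :=
    Nat.mul_le_mul_left _ (Nat.pow_le_pow_right hT (by omega))
  exact Nat.add_le_add_left (Nat.mul_le_mul_left _ h4) _

theorem pair_leV (a b T K N k : ℕ) (hb : 1 ≤ b) (hab : b ≤ a) (hq : 2 * a * b + b ^ 2 ≤ a ^ 2)
    (hT : 1 ≤ T) (hK : 1 ≤ K) (hN : 1 ≤ N) (c d : Fin N → Fin K)
    (h : MM (List.ofFn c) (List.ofFn d) < N / T + 1) :
    T * b * (3 * a + b) * OPT (left (cat (wordV a b T K) (List.ofFn c)) ++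
        (right (cat (wordV a b T K) (List.ofFn d)) ++ List.replicate k Base.A))
      ≤ N * (2 * (a + b) * T ^ (2 * K)) * (2 * T * a * b + 16 * a ^ 2 * b + b * (3 * a + b))
        + T * b * (3 * a + b) * k := by
  have hMM : T * MM (List.ofFn c) (List.ofFn d) ≤ N := by
    have h' : MM (List.ofFn c) (List.ofFn d) ≤ N / T := Nat.lt_succ_iff.1 h
    calc T * MM (List.ofFn c) (List.ofFn d) ≤ T * (N / T) := Nat.mul_le_mul_left _ h'
      _ ≤ N := Nat.mul_div_le N T
  obtain ⟨N', rfl⟩ : ∃ N', N = N' + 1 := ⟨N - 1, by omega⟩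
  obtain ⟨j, js, hc, hjs⟩ : ∃ (j : Fin K) (js : List (Fin K)), List.ofFn c = j :: js ∧
      js.length = N' := ⟨c 0, List.ofFn (fun i => c i.succ), List.ofFn_succ, by simp⟩
  obtain ⟨l, ls, hd, hls⟩ : ∃ (l : Fin K) (ls : List (Fin K)), List.ofFn d = l :: ls ∧
      ls.length = N' := ⟨d 0, List.ofFn (fun i => d i.succ), List.ofFn_succ, by simp⟩
  rw [hc, hd] at hMM
  rw [hc, hd]
  set W := wordV a b T K with hW
  set L := 2 * (a + b) * T ^ (2 * K) with hLdef
  set A := T * b * (3 * a + b) with hA
  set Rm := (a + b) * T ^ (2 * K - 1) with hRm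
  have hLR : 2 * T * Rm = L := by
    rw [hRm, hLdef]
    have : T ^ (2 * K) = T ^ (2 * K - 1) * T := by
      rw [← pow_succ]; congr 1; omega
    rw [this]; ring
  have hR2 : 2 * Rm ≤ L := by
    rw [← hLR]
    calc 2 * Rm = 1 * (2 * Rm) := by ring
      _ ≤ T * (2 * Rm) := Nat.mul_le_mul_right _ hT
      _ = 2 * T * Rm := by ring
  have hApos : 0 < A := by
    rw [hA]; positivity
  have key : ∀ σ : List Bool, σ.Sublist (cat W (j :: js)) → σ.Sublist (cat W (l :: ls)) →
      A * σ.length ≤ (N' + 1) * L * (2 * T * a * b + 16 * a ^ 2 * b + b * (3 * a + b)) := by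
    intro σ h1 h2
    have hcat : ∀ (i : Fin K) (is : List (Fin K)), cat W (i :: is) = W i ++ cat W is := by
      intro i is; simp [cat]
    rw [hcat] at h1 h2
    have hm := main_indV A (T * a * b + 4 * a ^ 2 * b) (8 * a ^ 2 * b * Rm) L W
      (fun i => Fac (bitW a b (T ^ (K - (i : ℕ))) (T ^ (2 * (i : ℕ)))))
      (fun i => wordV_length a b T K i)
      (fun i => ⟨0, 2 * (a + b) * T ^ (2 * K), by
        rw [hW, wordV, List.range_eq_range']⟩)
      (fun i x z hx hz => fac_infix _ x z hx hz)
      (by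
        intro p q hpq x y τ hx hy s1 s2
        rcases lt_or_gt_of_ne (fun h => hpq (Fin.ext h) : (p : ℕ) ≠ q) with h | h
        · exact pair_cellV a b T K hb hab hq hT p q h x y τ hx hy s1 s2
        · have := pair_cellV a b T K hb hab hq hT q p h y x τ hy hx s2 s1
          rw [add_comm y.length] at this
          exact this)
      (W j) j js (W l) l ls σ
      ⟨0, 2 * (a + b) * T ^ (2 * K), by rw [hW, wordV, List.range_eq_range']⟩
      ⟨0, 2 * (a + b) * T ^ (2 * K), by rw [hW, wordV, List.range_eq_range']⟩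
      (wordV_length a b T K j).le (wordV_length a b T K l).le h1 h2
    rw [show (W j).length = L from wordV_length a b T K j,
      show (W l).length = L from wordV_length a b T K l, hjs, hls] at hm
    have e1 : 8 * a ^ 2 * b * Rm * (N' + N' + 1) ≤ (N' + 1) * L * (8 * a ^ 2 * b) := by
      calc 8 * a ^ 2 * b * Rm * (N' + N' + 1) ≤ 8 * a ^ 2 * b * Rm * (2 * (N' + 1)) :=
            Nat.mul_le_mul_left _ (by omega)
        _ = 8 * a ^ 2 * b * (N' + 1) * (2 * Rm) := by ring
        _ ≤ 8 * a ^ 2 * b * (N' + 1) * L := Nat.mul_le_mul_left _ hR2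
        _ = _ := by ring
    have e2 : A * L * MM (j :: js) (l :: ls) ≤ (N' + 1) * L * (b * (3 * a + b)) := by
      calc A * L * MM (j :: js) (l :: ls)
          = b * (3 * a + b) * L * (T * MM (j :: js) (l :: ls)) := by rw [hA]; ring
        _ ≤ b * (3 * a + b) * L * (N' + 1) := Nat.mul_le_mul_left _ hMM
        _ = _ := by ring
    calc A * σ.length ≤ _ := hm
      _ ≤ (T * a * b + 4 * a ^ 2 * b) * (L + L + L * (N' + N'))
          + (N' + 1) * L * (8 * a ^ 2 * b) + (N' + 1) * L * (b * (3 * a + b)) :=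
        Nat.add_le_add (Nat.add_le_add_left e1 _) e2
      _ = _ := by ring
  have h5 : OPT (left (cat W (j :: js)) ++ right (cat W (l :: ls)))
      ≤ (N' + 1) * L * (2 * T * a * b + 16 * a ^ 2 * b + b * (3 * a + b)) / A := by
    apply opt_le
    intro σ h1 h2
    rw [Nat.le_div_iff_mul_le hApos, mul_comm]
    exact key σ h1 h2
  rw [← List.append_assoc]
  have h6 := opt_append_le (left (cat W (j :: js)) ++ right (cat W (l :: ls)))
    (List.replicate k Base.A)
  rw [List.length_replicate] at h6
  calc A * OPT (left (cat W (j :: js)) ++ right (cat W (l :: ls)) ++ List.replicate k Base.A)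
      ≤ A * ((N' + 1) * L * (2 * T * a * b + 16 * a ^ 2 * b + b * (3 * a + b)) / A + k) :=
        Nat.mul_le_mul_left _ (h6.trans (Nat.add_le_add_right h5 _))
    _ = A * ((N' + 1) * L * (2 * T * a * b + 16 * a ^ 2 * b + b * (3 * a + b)) / A) + A * k := by
        ring
    _ ≤ _ := Nat.add_le_add_right (Nat.mul_div_le _ _) _

theorem avg {Ω V : Type} [Fintype V] (μ : PMF Ω) (S : V → Set Ω) (δ : ENNReal)
    (h : ∀ c, δ ≤ μ.toOuterMeasure (S c)) :
    ∃ ω ∈ μ.support, ∃ G : Finset V, (∀ c ∈ G, ω ∈ S c) ∧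
      δ * (Fintype.card V : ENNReal) ≤ (G.card : ENNReal) := by
  classical
  obtain ⟨g, hg⟩ : ∃ g : Ω → ℕ, g = fun ω => (Finset.univ.filter (fun c => ω ∈ S c)).card :=
    ⟨_, rfl⟩
  have hne : (g '' μ.support).Nonempty := μ.support_nonempty.image g
  have hbdd : BddAbove (g '' μ.support) := by
    refine ⟨Fintype.card V, ?_⟩
    rintro _ ⟨ω, _, rfl⟩
    rw [hg]
    exact Finset.card_le_univ _
  obtain ⟨ω0, hω0, hmax⟩ := Nat.sSup_mem hne hbdd
  have hle : ∀ ω ∈ μ.support, g ω ≤ g ω0 := by
    intro ω hω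
    rw [hmax]
    exact le_csSup hbdd ⟨ω, hω, rfl⟩
  refine ⟨ω0, hω0, Finset.univ.filter (fun c => ω0 ∈ S c), ?_, ?_⟩
  · intro c hc
    simpa using hc
  have h1 : δ * (Fintype.card V : ENNReal) ≤ ∑ c, μ.toOuterMeasure (S c) := by
    calc δ * (Fintype.card V : ENNReal) = ∑ _c : V, δ := by
          rw [Finset.sum_const, Finset.card_univ, nsmul_eq_mul, mul_comm]
      _ ≤ _ := Finset.sum_le_sum (fun c _ => h c)
  have h2 : ∑ c, μ.toOuterMeasure (S c) = ∑' ω, μ ω * (g ω : ENNReal) := by
    simp_rw [PMF.toOuterMeasure_apply]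
    rw [← Summable.tsum_finsetSum (fun _ _ => ENNReal.summable)]
    refine tsum_congr (fun ω => ?_)
    rw [hg]
    simp only [Set.indicator_apply]
    rw [← Finset.sum_filter, Finset.sum_const, nsmul_eq_mul, mul_comm]
  have h3 : ∑' ω, μ ω * (g ω : ENNReal) ≤ ∑' ω, μ ω * (g ω0 : ENNReal) := by
    refine ENNReal.tsum_le_tsum (fun ω => ?_)
    by_cases hω : ω ∈ μ.support
    · exact mul_le_mul_right (by exact_mod_cast hle ω hω) _
    · rw [PMF.mem_support_iff, not_not] at hω
      simp [hω]
  have h4 : ∑' ω, μ ω * (g ω0 : ENNReal) = (g ω0 : ENNReal) := by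
    rw [ENNReal.tsum_mul_right, μ.tsum_coe, one_mul]
  have h5 : ((Finset.univ.filter (fun c => ω0 ∈ S c)).card : ENNReal) = (g ω0 : ENNReal) := by
    rw [hg]
  rw [h5]
  calc _ ≤ _ := h1
    _ = _ := h2
    _ ≤ _ := h3
    _ = _ := h4

theorem right_length (v : List Bool) : (right v).length = v.length := by simp [right]

theorem left_length (v : List Bool) : (left v).length = v.length := by simp [left]

theorem params (α : ℝ) (h2 : α < 1 + √2 / 2) :
    ∃ a b : ℕ, 1 ≤ b ∧ b ≤ a ∧ 2 * a * b + b ^ 2 ≤ a ^ 2 ∧ α * (2 * (a : ℝ)) < 3 * a + b := by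
  have hs1 : (1 : ℝ) < √2 := by
    rw [Real.lt_sqrt (by norm_num)]; norm_num
  have hs2 : √2 ^ 2 = 2 := Real.sq_sqrt (by norm_num)
  have hs3 : √2 < 2 := by
    rw [Real.sqrt_lt' (by norm_num)]; norm_num
  obtain ⟨r, hr1, hr2⟩ := exists_rat_btwn (show max 0 (2 * α - 3) < √2 - 1 by
    apply max_lt <;> linarith)
  have hr0 : (0 : ℝ) < r := lt_of_le_of_lt (le_max_left _ _) hr1
  have hrα : 2 * α - 3 < r := lt_of_le_of_lt (le_max_right _ _) hr1
  have hrq : 0 < r := by exact_mod_cast hr0
  have hnum : 0 < r.num := Rat.num_pos.mpr hrq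
  have hden : (0 : ℝ) < (r.den : ℝ) := by exact_mod_cast r.den_pos
  obtain ⟨b, hb⟩ : ∃ b : ℕ, (b : ℤ) = r.num := ⟨r.num.toNat, Int.toNat_of_nonneg hnum.le⟩
  have hrb : (r : ℝ) = (b : ℝ) / (r.den : ℝ) := by
    have : (r : ℝ) = (r.num : ℝ) / (r.den : ℝ) := by exact_mod_cast (Rat.num_div_den r).symm
    rw [this, ← hb]; simp
  have hbr : (b : ℝ) = r * r.den := by rw [hrb]; field_simp
  refine ⟨r.den, b, ?_, ?_, ?_, ?_⟩
  · have : (0 : ℤ) < b := by rw [hb]; exact hnum
    omega
  · have : (b : ℝ) ≤ r.den := by rw [hbr]; nlinarith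
    exact_mod_cast this
  · have : 2 * (r.den : ℝ) * b + (b : ℝ) ^ 2 ≤ (r.den : ℝ) ^ 2 := by
      rw [hbr]
      have h3 : 2 * (r : ℝ) + (r : ℝ) ^ 2 ≤ 1 := by nlinarith
      have h4 : 0 < (r.den : ℝ) ^ 2 := by positivity
      nlinarith
    exact_mod_cast this
  · rw [hbr]; nlinarith

theorem numericV (a b T N L k O1 O2 : ℕ) (α δ : ℝ) (hα : 0 < α)
    (hb : 1 ≤ b) (hδ2 : (3 * (a : ℝ) + b) * (1 / α) = 2 * a + δ)
    (hTδ : 16 * (a : ℝ) ^ 2 + 3 * (3 * a + b) < δ * T)
    (hT1 : 1 ≤ T) (hN1 : 1 ≤ N) (hLpos : 0 < L) (hkL : k < 2 * L) (hNT : T + 1 ≤ N)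
    (hp : T * b * (3 * a + b) * O2 ≤ N * L * (2 * T * a * b + 16 * a ^ 2 * b + b * (3 * a + b))
      + T * b * (3 * a + b) * k)
    (lower : N * L ≤ O1) (a3 : (O1 : ℝ) / α ≤ O2) : False := by
  have hT0 : (0 : ℝ) < T := by exact_mod_cast hT1
  have hb0 : (0 : ℝ) < b := by exact_mod_cast hb
  have hLr : (0 : ℝ) < (L : ℝ) := by exact_mod_cast hLpos
  have hNr : (0 : ℝ) < N := by exact_mod_cast hN1
  have ha0 : (0 : ℝ) ≤ (a : ℝ) := by positivity
  have lower' : ((N : ℝ) * L) ≤ O1 := by exact_mod_cast lower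
  have hp' : (T : ℝ) * b * (3 * a + b) * O2 ≤
      N * L * (2 * T * a * b + 16 * a ^ 2 * b + b * (3 * a + b))
      + T * b * (3 * a + b) * k := by exact_mod_cast hp
  have hk' : (k : ℝ) * T ≤ 2 * L * N := by
    have : k * T ≤ 2 * L * N := Nat.mul_le_mul (by omega) (by omega)
    exact_mod_cast this
  have a4 : (N : ℝ) * L * (1 / α) ≤ O2 := by
    calc (N : ℝ) * L * (1 / α) ≤ O1 * (1 / α) := by
          apply mul_le_mul_of_nonneg_right lower' (by positivity)
      _ = O1 / α := by ring
      _ ≤ O2 := a3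
  have c1 : (b : ℝ) * (3 * a + b) * (k * T) ≤ b * (3 * a + b) * (2 * L * N) :=
    mul_le_mul_of_nonneg_left hk' (by positivity)
  have c2 : (T : ℝ) * b * (3 * a + b) * ((N : ℝ) * L * (1 / α)) ≤ T * b * (3 * a + b) * O2 :=
    mul_le_mul_of_nonneg_left a4 (by positivity)
  have c3 : (T : ℝ) * b * (3 * a + b) * ((N : ℝ) * L * (1 / α)) =
      N * L * b * (T * (2 * a + δ)) := by
    rw [← hδ2]; ring
  rw [c3] at c2
  have hNL : 0 < (N : ℝ) * L * b := by positivity
  have b2 : (N : ℝ) * L * b * (T * (2 * a + δ)) ≤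
      (N : ℝ) * L * b * (2 * T * a + 16 * a ^ 2 + 3 * (3 * a + b)) := by linarith
  have b3 := le_of_mul_le_mul_left b2 hNL
  linarith

/-- A randomised algorithm is a probability distribution `μ` on deterministic algorithms with `s`
bits of memory. `NeverOverestimates`: with `p` passes, on words of length `n`, its output is never
larger than the optimum, whatever the random choices. -/
def NeverOverestimates {s : ℕ} (μ : PMF (Alg s)) (p n : ℕ) : Prop :=
  ∀ A ∈ μ.support, ∀ x : List Base, x.length = n → A.output p x ≤ (OPT x : ℝ)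

/-- Probability that the output of the randomised algorithm `μ` after `p` passes over `x` is an
`α`-approximation of `OPT x`. -/
noncomputable def successProbability {s : ℕ} (μ : PMF (Alg s)) (p : ℕ) (α : ℝ)
    (x : List Base) : ENNReal :=
  μ.toOuterMeasure {A | (OPT x : ℝ) / α ≤ A.output p x ∧ A.output p x ≤ (OPT x : ℝ)}

theorem card_of_prob (c : ℝ) (n K N g : ℕ)
    (h : ENNReal.ofReal ((2 : ℝ) ^ (-(c * n))) * ((K ^ N : ℕ) : ENNReal) ≤ (g : ENNReal)) :
    K ^ N ≤ 2 ^ ⌈c * n⌉₊ * g := by
  have h1 : (2 : ℝ) ^ (-(c * n)) * ((K ^ N : ℕ) : ℝ) ≤ (g : ℝ) := by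
    rw [← ENNReal.ofReal_natCast, ← ENNReal.ofReal_natCast,
      ← ENNReal.ofReal_mul (by positivity)] at h
    exact (ENNReal.ofReal_le_ofReal_iff (by positivity)).1 h
  have h2 : (1 : ℝ) ≤ (2 : ℝ) ^ (⌈c * n⌉₊ : ℝ) * (2 : ℝ) ^ (-(c * n)) := by
    rw [← Real.rpow_add (by norm_num)]
    apply Real.one_le_rpow (by norm_num)
    have := Nat.le_ceil (c * n)
    linarith
  have h3 : ((K ^ N : ℕ) : ℝ) ≤ (2 : ℝ) ^ (⌈c * n⌉₊ : ℝ) * (g : ℝ) := by
    calc ((K ^ N : ℕ) : ℝ) = 1 * ((K ^ N : ℕ) : ℝ) := by ring
      _ ≤ ((2 : ℝ) ^ (⌈c * n⌉₊ : ℝ) * (2 : ℝ) ^ (-(c * n))) * ((K ^ N : ℕ) : ℝ) :=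
          mul_le_mul_of_nonneg_right h2 (by positivity)
      _ = (2 : ℝ) ^ (⌈c * n⌉₊ : ℝ) * ((2 : ℝ) ^ (-(c * n)) * ((K ^ N : ℕ) : ℝ)) := by ring
      _ ≤ (2 : ℝ) ^ (⌈c * n⌉₊ : ℝ) * (g : ℝ) := mul_le_mul_of_nonneg_left h1 (by positivity)
  rw [Real.rpow_natCast] at h3
  exact_mod_cast h3

theorem result : ∀ α : ℝ, 1 ≤ α → α < 1 + √2 / 2 →
    ∃ c : ℝ, 0 < c ∧ ∃ n₀ : ℕ, ∀ n : ℕ, n₀ ≤ n → ∀ p s : ℕ, (p : ℝ) * (s : ℝ) ≤ c * n →
      ∀ μ : PMF (Alg s), NeverOverestimates μ p n →
        ∃ x : List Base, x.length = n ∧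
          successProbability μ p α x < ENNReal.ofReal ((2 : ℝ) ^ (-(c * n))) := by
  intro α h1 h2
  have hα : 0 < α := by linarith
  obtain ⟨a, b, hb, hab, hq, hαab⟩ := params α h2
  obtain ⟨δ, hδ, hδ2⟩ : ∃ δ : ℝ, 0 < δ ∧ (3 * (a : ℝ) + b) * (1 / α) = 2 * a + δ := by
    refine ⟨(3 * (a : ℝ) + b) * (1 / α) - 2 * a, ?_, by ring⟩
    have : 2 * (a : ℝ) < (3 * (a : ℝ) + b) * (1 / α) := by
      rw [mul_one_div, lt_div_iff₀ hα]; linarith
    linarith
  obtain ⟨T, hT⟩ := exists_nat_gt ((16 * (a : ℝ) ^ 2 + 3 * (3 * a + b)) / δ)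
  have hb0 : (0 : ℝ) < b := by exact_mod_cast hb
  have hT0 : (0 : ℝ) < T := lt_trans (by positivity) hT
  have hT1 : 1 ≤ T := by exact_mod_cast hT0
  have hTδ : 16 * (a : ℝ) ^ 2 + 3 * (3 * a + b) < δ * T := by
    rw [div_lt_iff₀ hδ] at hT; linarith [mul_comm δ (T : ℝ)]
  obtain ⟨K, hK⟩ : ∃ K : ℕ, K = 32 ^ T := ⟨_, rfl⟩
  have hK1 : 1 ≤ K := by rw [hK]; exact Nat.one_le_pow _ _ (by norm_num)
  obtain ⟨L, hL⟩ : ∃ L : ℕ, L = 2 * (a + b) * T ^ (2 * K) := ⟨_, rfl⟩
  have hLpos : 0 < L := by
    rw [hL]
    have : 0 < a + b := by omega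
    positivity
  have hLr : (0 : ℝ) < (L : ℝ) := by exact_mod_cast hLpos
  obtain ⟨c, hc⟩ : ∃ c : ℝ, c = 1 / (64 * L) := ⟨_, rfl⟩
  have hc0 : 0 < c := by rw [hc]; positivity
  refine ⟨c, hc0, 2 * L * (T + 3), ?_⟩
  intro n hn p s hps μ hμ
  by_contra hcon
  push Not at hcon
  obtain ⟨N, hN⟩ : ∃ N : ℕ, N = n / (2 * L) := ⟨_, rfl⟩
  obtain ⟨k, hk⟩ : ∃ k : ℕ, k = n % (2 * L) := ⟨_, rfl⟩
  have hnk : 2 * L * N + k = n := by rw [hN, hk]; exact Nat.div_add_mod n (2 * L)
  have hkL : k < 2 * L := by rw [hk]; exact Nat.mod_lt _ (by positivity)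
  have hNT3 : T + 3 ≤ N := by
    rw [hN, Nat.le_div_iff_mul_le (by positivity)]
    calc (T + 3) * (2 * L) = 2 * L * (T + 3) := by ring
      _ ≤ n := hn
  have hNT : T + 1 ≤ N := by omega
  have hN1 : 1 ≤ N := by omega
  have len : ∀ e f : Fin N → Fin K, (left (cat (wordV a b T K) (List.ofFn e)) ++
      (right (cat (wordV a b T K) (List.ofFn f)) ++ List.replicate k Base.A)).length = n := by
    intro e f
    simp only [List.length_append, left_length, right_length, catV_length, List.length_ofFn,
      List.length_replicate, ← hL]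
    rw [← hnk]; ring
  obtain ⟨A, hA, G, hG, hcard⟩ := avg μ
    (fun e : Fin N → Fin K => {A : Alg s |
      (OPT (left (cat (wordV a b T K) (List.ofFn e)) ++
        (right (cat (wordV a b T K) (List.ofFn e)) ++ List.replicate k Base.A)) : ℝ) / α ≤
        A.output p (left (cat (wordV a b T K) (List.ofFn e)) ++
        (right (cat (wordV a b T K) (List.ofFn e)) ++ List.replicate k Base.A)) ∧
      A.output p (left (cat (wordV a b T K) (List.ofFn e)) ++
        (right (cat (wordV a b T K) (List.ofFn e)) ++ List.replicate k Base.A)) ≤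
      (OPT (left (cat (wordV a b T K) (List.ofFn e)) ++
        (right (cat (wordV a b T K) (List.ofFn e)) ++ List.replicate k Base.A)) : ℝ)})
    (ENNReal.ofReal ((2 : ℝ) ^ (-(c * n)))) (fun e => hcon _ (len e e))
  have hcardV : Fintype.card (Fin N → Fin K) = K ^ N := by simp
  rw [hcardV] at hcard
  have hGK := card_of_prob c n K N G.card hcard
  have key : N ≤ 2 * p * s + 2 * ⌈c * n⌉₊ := by
    refine counting2 A p N K T (N * L) ⌈c * n⌉₊ hT1 hK
      (fun e => left (cat (wordV a b T K) (List.ofFn e)))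
      (fun e => right (cat (wordV a b T K) (List.ofFn e)) ++ List.replicate k Base.A) ?_
      G hGK ?_
    · intro e
      simp only [left_length, catV_length, List.length_ofFn, hL]
    · intro e he d hd hcd
      by_contra hlt
      push Not at hlt
      have hp := pair_leV a b T K N k hb hab hq hT1 hK1 hN1 e d hlt
      rw [← hL] at hp
      have lower : N * L ≤ OPT (left (cat (wordV a b T K) (List.ofFn e)) ++
          (right (cat (wordV a b T K) (List.ofFn e)) ++ List.replicate k Base.A)) := by
        rw [← List.append_assoc]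
        refine le_trans ?_ (opt_append_ge _ _)
        have := opt_ge (cat (wordV a b T K) (List.ofFn e))
        rwa [catV_length, List.length_ofFn, ← hL] at this
      have a1 := (hG e he).1
      have a2 := hμ A hA _ (len e d)
      rw [hcd] at a2
      have a3 := le_trans a1 a2
      generalize OPT (left (cat (wordV a b T K) (List.ofFn e)) ++
          (right (cat (wordV a b T K) (List.ofFn e)) ++ List.replicate k Base.A)) = O1 at lower a3
      generalize OPT (left (cat (wordV a b T K) (List.ofFn e)) ++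
          (right (cat (wordV a b T K) (List.ofFn d)) ++ List.replicate k Base.A)) = O2 at hp a3
      clear hcd hlt len hA a1 a2 hG hcon
      exact numericV a b T N L k O1 O2 α δ hα hb hδ2 hTδ hT1 hN1 hLpos hkL hNT hp lower a3
  have hceil : (⌈c * n⌉₊ : ℝ) < c * n + 1 := Nat.ceil_lt_add_one (by positivity)
  have hkey : (N : ℝ) ≤ 2 * (p * s) + 2 * (⌈c * n⌉₊ : ℝ) := by
    have : N ≤ 2 * (p * s) + 2 * ⌈c * n⌉₊ := by rw [← mul_assoc]; exact key
    exact_mod_cast this
  have hn2 : (n : ℝ) ≤ 4 * L * N := by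
    have : n ≤ 4 * L * N := by nlinarith
    exact_mod_cast this
  have hNr : (3 : ℝ) ≤ N := by
    have : 3 ≤ N := by omega
    exact_mod_cast this
  have hcn : c * n ≤ N / 16 := by
    rw [hc, div_mul_eq_mul_div, one_mul, div_le_iff₀ (by positivity)]
    nlinarith
  linarith

end Pool.Agent.Results.MP_8c24b6_lc.OneSidedSqrtTwo
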